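import Pool.Agent.MP_f3836a_nt.H24.Gal

namespace Pool.Agent.MP_f3836a_nt.H24

open Polynomial NumberField
open scoped IntermediateField

theorem ff_gen {K : Type} [Field K] (W : WeierstrassCurve K) :
    ∃ x y : W.toAffine.FunctionField, Transcendental K x ∧
      IntermediateField.adjoin K {x, y} = ⊤ ∧
      y ^ 2 + algebraMap K _ W.a₁ * x * y + algebraMap K _ W.a₃ * y =
        x ^ 3 + algebraMap K _ W.a₂ * x ^ 2 + algebraMap K _ W.a₄ * x + algebraMap K _ W.a₆ := by
  let A := W.toAffine.CoordinateRing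
  let F := W.toAffine.FunctionField
  let x : F := algebraMap A F (algebraMap K[X] A X)
  let y : F := algebraMap A F (AdjoinRoot.root W.toAffine.polynomial)
  have k : ∀ p : K[X], aeval x p = algebraMap A F (algebraMap K[X] A p) := by
    intro p
    have := aeval_algHom_apply ((IsScalarTower.toAlgHom K A F).comp
      (IsScalarTower.toAlgHom K K[X] A)) X p
    rw [aeval_X_left_apply] at this
    exact this
  refine ⟨x, y, ?_, ?_, ?_⟩
  · rw [transcendental_iff_injective]
    intro p q h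
    rw [k, k] at h
    exact FaithfulSMul.algebraMap_injective K[X] A (IsFractionRing.injective A F h)
  · have m1 : x ∈ IntermediateField.adjoin K {x, y} := IntermediateField.subset_adjoin _ _ (by simp)
    have m2 : y ∈ IntermediateField.adjoin K {x, y} := IntermediateField.subset_adjoin _ _ (by simp)
    have m3 : ∀ p : K[X], algebraMap A F (algebraMap K[X] A p) ∈
        IntermediateField.adjoin K {x, y} := fun p => by
      rw [← k]
      exact (Algebra.adjoin_le (S := (IntermediateField.adjoin K {x, y}).toSubalgebra)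
        (Set.singleton_subset_iff.2 m1)) (aeval_mem_adjoin_singleton K x)
    have m4 : ∀ a : A, algebraMap A F a ∈ IntermediateField.adjoin K {x, y} := by
      intro a
      obtain ⟨p, q, rfl⟩ := WeierstrassCurve.Affine.CoordinateRing.exists_smul_basis_eq a
      rw [Algebra.smul_def, Algebra.smul_def, mul_one, map_add, map_mul]
      exact add_mem (m3 p) (mul_mem (m3 q) m2)
    rw [eq_top_iff]
    intro z _
    obtain ⟨a, b, -, rfl⟩ := IsFractionRing.div_surjective A z
    exact div_mem (m4 a) (m4 b)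
  · have h0 : eval₂ (AdjoinRoot.of W.toAffine.polynomial) (AdjoinRoot.root W.toAffine.polynomial)
        (X ^ 2 + C (C W.a₁ * X + C W.a₃) * X -
          C (X ^ 3 + C W.a₂ * X ^ 2 + C W.a₄ * X + C W.a₆) : K[X][X]) = 0 :=
      AdjoinRoot.eval₂_root W.toAffine.polynomial
    have h := congrArg (algebraMap A F) h0
    simp only [eval₂_sub, eval₂_add, eval₂_mul, eval₂_pow, eval₂_X, eval₂_C, map_sub, map_add,
      map_mul, map_pow, map_zero] at h
    have e : ∀ c : K, algebraMap A F (AdjoinRoot.of W.toAffine.polynomial (C c)) =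
        algebraMap K F c := fun c => by
      have := k (C c)
      rw [aeval_C] at this
      exact this.symm
    rw [e, e, e, e, e] at h
    change y ^ 2 + (_ * x + _) * y - (x ^ 3 + _ * x ^ 2 + _ * x + _) = 0 at h
    linear_combination h

/-- The Tate normal form for a point of order five. -/
def Eb {K : Type} [Field K] (b : K) : WeierstrassCurve K := ⟨1 - b, -b, -b, 0, 0⟩

theorem Eb_Δ {K : Type} [Field K] (b : K) : (Eb b).Δ = b ^ 5 * (b ^ 2 - 11 * b - 1) := by
  simp only [Eb, WeierstrassCurve.Δ, WeierstrassCurve.b₂, WeierstrassCurve.b₄, WeierstrassCurve.b₆,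
    WeierstrassCurve.b₈]
  ring

theorem Eb_c₄ {K : Type} [Field K] (b : K) :
    (Eb b).c₄ = b ^ 4 - 12 * b ^ 3 + 14 * b ^ 2 + 12 * b + 1 := by
  simp only [Eb, WeierstrassCurve.c₄, WeierstrassCurve.b₂, WeierstrassCurve.b₄]
  ring

theorem Eb_j {K : Type} [Field K] (b : K) [(Eb b).IsElliptic] :
    (Eb b).j * (b ^ 5 * (b ^ 2 - 11 * b - 1)) =
      (b ^ 4 - 12 * b ^ 3 + 14 * b ^ 2 + 12 * b + 1) ^ 3 := by
  rw [← Eb_Δ, ← Eb_c₄, WeierstrassCurve.j, ← WeierstrassCurve.coe_Δ', mul_right_comm,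
    Units.inv_mul, one_mul]

section field

variable {K : Type} [Field K] [NumberField K] {m : ℤ} {r : K}

theorem minpoly_r (hm : (m : ZMod 11) = -2) (hr : Mp (m : K) r = 0) : minpoly ℚ r = Mr m :=
  (minpoly.eq_of_irreducible_of_monic (Mr_irr hm) ((aeval_Mr m r).trans hr) (Mr_monic m)).symm

theorem top_r (hm : (m : ZMod 11) = -2) (hr : Mp (m : K) r = 0) (hK : Module.finrank ℚ K = 6) :
    ℚ⟮r⟯ = ⊤ := by
  rw [Field.primitive_element_iff_minpoly_natDegree_eq, minpoly_r hm hr, Mr_natDegree, hK]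

theorem exists_emb (hm : (m : ZMod 11) = -2) (hr : Mp (m : K) r = 0) (hK : Module.finrank ℚ K = 6)
    {A : Type} [Field A] [CharZero A] {ρ : A} (hρ : Mp (m : A) ρ = 0) :
    ∃ σ : K →ₐ[ℚ] A, σ r = ρ := by
  have hi : IsIntegral ℚ r := IsIntegral.of_finite ℚ r
  have ht : Algebra.adjoin ℚ {r} = ⊤ := by
    rw [← IntermediateField.adjoin_simple_toSubalgebra_of_isAlgebraic hi.isAlgebraic, top_r hm hr hK,
      IntermediateField.top_toSubalgebra]
  have hg := PowerBasis.ofAdjoinEqTop'_gen hi ht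
  refine ⟨(PowerBasis.ofAdjoinEqTop' hi ht).lift ρ ?_, ?_⟩
  · rw [hg, minpoly_r hm hr, aeval_Mr, hρ]
  · exact (congrArg _ hg.symm).trans (PowerBasis.lift_gen _ _ _)

theorem gal_j (hm : (m : ZMod 11) = -2) (hm' : (m : ZMod 43) = 0) (hr : Mp (m : K) r = 0)
    (hK : Module.finrank ℚ K = 6) {j : K}
    (hj : j * (Bb r ^ 5 * (Bb r ^ 2 - 11 * Bb r - 1)) =
      (Bb r ^ 4 - 12 * Bb r ^ 3 + 14 * Bb r ^ 2 + 12 * Bb r + 1) ^ 3) :
    (minpoly ℚ j).natDegree = 6 ∧ Nonempty ((minpoly ℚ j).Gal ≃* Equiv.Perm (Fin 6)) := by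
  classical
  let L := (Mr m).SplittingField
  have : CharZero L := charZero_of_injective_algebraMap (algebraMap ℚ L).injective
  have hsf : IsSplittingField ℚ L (Mr m) := IsSplittingField.splittingField (Mr m)
  have : NumberField L := { to_finiteDimensional := IsSplittingField.finiteDimensional L (Mr m) }
  have sep := (Mr_irr hm).separable
  have : IsGalois ℚ L := IsGalois.of_separable_splitting_field sep
  have hs : ((Mr m).map (algebraMap ℚ L)).Splits := hsf.splits L (Mr m)
  have hinj : Function.Injective (MulAction.toPermHom (L ≃ₐ[ℚ] L) ((Mr m).rootSet L)) := by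
    intro σ τ h
    refine Gal.ext (Mr m) fun x hx => ?_
    exact congrArg Subtype.val (DFunLike.congr_fun h ⟨x, hx⟩)
  have hsurj := gal_surj hs hinj hm hm'
  have hcard : Fintype.card ((Mr m).rootSet L) = 6 :=
    (card_rootSet_eq_natDegree sep hs).trans (Mr_natDegree m)
  obtain ⟨-, α, β, hαβ⟩ := swap43 hs hm hm'
  have hne : α ≠ β := by
    rintro rfl
    exact hαβ rfl
  have mem : ∀ φ : K →ₐ[ℚ] L, φ r ∈ (Mr m).rootSet L := fun φ => by
    rw [mem_roots, ← map_intCast φ.toRingHom]
    exact (Mp_map φ.toRingHom _ _).symm.trans (by rw [hr, map_zero])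
  obtain ⟨φ0, -⟩ := exists_emb hm hr hK (mem_roots.1 α.2)
  have hA : ∀ x : K, ((minpoly ℚ x).map (algebraMap ℚ L)).Splits := fun x => by
    rw [← minpoly.algHom_eq φ0 φ0.injective x]
    exact Normal.splits inferInstance _
  have jinj : Function.Injective fun φ : K →ₐ[ℚ] L => φ j := by
    intro φ ψ h
    by_contra hc
    have h1 : (⟨φ r, mem φ⟩ : (Mr m).rootSet L) ≠ ⟨ψ r, mem ψ⟩ := fun c =>
      hc ((Field.primitive_element_iff_algHom_eq_of_eval' ℚ L hA r).1 (top_r hm hr hK)
        (congrArg Subtype.val c))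
    obtain ⟨g, g1, g2⟩ := (MulAction.is_two_pretransitive_iff.1
      (Equiv.Perm.isMultiplyPretransitive ((Mr m).rootSet L) 2)) hne h1
    obtain ⟨σ, rfl⟩ := hsurj g
    have e1 : σ α = φ r := congrArg Subtype.val g1
    have e2 : σ β = ψ r := congrArg Subtype.val g2
    apply hαβ
    refine Rel.of_map (σ : L →+* L) σ.injective ?_
    rw [Bb_map, Bb_map]
    change Rel (Bb (σ α)) (Bb (σ β))
    rw [e1, e2]
    have a1 := congrArg φ.toRingHom hj
    have a2 := congrArg ψ.toRingHom hj
    simp only [map_mul, map_pow, map_sub, map_add, map_one, map_ofNat, Bb_map] at a1 a2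
    change φ j * _ = _ at a1
    change ψ j * _ = _ at a2
    have h' : φ j = ψ j := h
    change Rel (Bb (φ.toRingHom r)) (Bb (ψ.toRingHom r))
    rw [Rel, ← a1, ← a2, h']
    ring
  have jtop : ℚ⟮j⟯ = ⊤ := (Field.primitive_element_iff_algHom_eq_of_eval' ℚ L hA j).2 jinj
  refine ⟨((Field.primitive_element_iff_minpoly_natDegree_eq ℚ j).1 jtop).trans hK, ?_⟩
  have hsj : IsSplittingField ℚ L (minpoly ℚ j) := by
    rw [isSplittingField_iff_intermediateField]
    refine ⟨hA j, ?_⟩
    rw [eq_top_iff, ← (isSplittingField_iff_intermediateField.1 hsf).2,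
      IntermediateField.adjoin_le_iff]
    intro x hx
    obtain ⟨φ, rfl⟩ := exists_emb hm hr hK (mem_roots.1 hx)
    have h1 : φ r ∈ (ℚ⟮j⟯).map φ := ⟨r, jtop ▸ IntermediateField.mem_top, rfl⟩
    rw [IntermediateField.adjoin_map, Set.image_singleton] at h1
    refine IntermediateField.adjoin.mono ℚ _ _ (Set.singleton_subset_iff.2 ?_) h1
    rw [(minpoly.monic (IsIntegral.of_finite ℚ j)).mem_rootSet, aeval_algHom_apply, minpoly.aeval,
      map_zero]
  exact ⟨((AlgEquiv.autCongr (IsSplittingField.algEquiv L (minpoly ℚ j))).symm.trans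
    (MulEquiv.ofBijective _ ⟨hinj, hsurj⟩)).trans
    (Fintype.equivFinOfCardEq hcard).permCongrHom⟩

end field

end Pool.Agent.MP_f3836a_nt.H24
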