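import Pool.Agent.MP_f3836a_nt.H24.Rank

namespace Pool.Agent.MP_f3836a_nt.H24

open Polynomial

section alg

variable {K : Type} [Field K]

/-- The sextic equation of the family. -/
def Mp (μ r : K) : K := (r ^ 2 - 1) ^ 3 + r * (μ * (r ^ 2 - 1) + 2) * (μ * (r ^ 2 - 1) + 2 * r ^ 2)

/-- First coordinate. -/
def W1 (r : K) : K := (r - 1) / (r + 1)

/-- Second coordinate. -/
def W2 (μ r : K) : K := r * (μ * (r ^ 2 - 1) + 2) / ((r + 1) * (r ^ 2 - 1))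

/-- Third coordinate. -/
def W3 (μ r : K) : K := -(r * (μ * (r ^ 2 - 1) + 2 * r ^ 2)) / ((r + 1) * (r ^ 2 - 1))

/-- The parameter of the Tate normal form. -/
def Bb (r : K) : K := (r + 1) ^ 2 / (r * (r - 1) ^ 2)

variable {μ r : K}

theorem Mp_ne [CharZero K] (h : Mp μ r = 0) : r ≠ 0 ∧ r + 1 ≠ 0 ∧ r - 1 ≠ 0 ∧ r ^ 2 - 1 ≠ 0 ∧
    μ * (r ^ 2 - 1) + 2 ≠ 0 ∧ μ * (r ^ 2 - 1) + 2 * r ^ 2 ≠ 0 := by
  have a1 : r ≠ 0 := by
    rintro rfl
    norm_num [Mp] at h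
  have a2 : r + 1 ≠ 0 := by
    intro c
    rw [eq_neg_of_add_eq_zero_left c] at h
    norm_num [Mp] at h
  have a3 : r - 1 ≠ 0 := by
    intro c
    rw [sub_eq_zero.1 c] at h
    norm_num [Mp] at h
  have a4 : r ^ 2 - 1 ≠ 0 := by
    have : r ^ 2 - 1 = (r + 1) * (r - 1) := by ring
    rw [this]
    exact mul_ne_zero a2 a3
  refine ⟨a1, a2, a3, a4, fun c => ?_, fun c => ?_⟩
  · rw [Mp, c] at h
    exact pow_ne_zero 3 a4 (by simpa using h)
  · rw [Mp, c] at h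
    exact pow_ne_zero 3 a4 (by simpa using h)

theorem W2_alt [CharZero K] (h : Mp μ r = 0) :
    W2 μ r = -((r - 1) * (r ^ 2 - 1)) / (μ * (r ^ 2 - 1) + 2 * r ^ 2) := by
  obtain ⟨a1, a2, a3, a4, a5, a6⟩ := Mp_ne h
  rw [W2, div_eq_div_iff (mul_ne_zero a2 a4) a6]
  rw [Mp] at h
  linear_combination h

theorem W3_alt [CharZero K] (h : Mp μ r = 0) :
    W3 μ r = (r - 1) * (r ^ 2 - 1) / (μ * (r ^ 2 - 1) + 2) := by
  obtain ⟨a1, a2, a3, a4, a5, a6⟩ := Mp_ne h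
  rw [W3, div_eq_div_iff (mul_ne_zero a2 a4) a5]
  rw [Mp] at h
  linear_combination -h

theorem W_sum [CharZero K] (h : Mp μ r = 0) : W1 r + W2 μ r + W3 μ r = -1 := by
  obtain ⟨a1, a2, a3, a4, a5, a6⟩ := Mp_ne h
  rw [W1, W2, W3]
  field_simp
  ring

theorem W_prod [CharZero K] (h : Mp μ r = 0) : W2 μ r * W3 μ r = r * W1 r := by
  obtain ⟨a1, a2, a3, a4, a5, a6⟩ := Mp_ne h
  rw [W3_alt h, W1, W2]
  field_simp

theorem dat_W [CharZero K] (h : Mp μ r = 0) : Dat (Bb r) (W1 r) (W2 μ r) (W3 μ r) := by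
  obtain ⟨a1, a2, a3, a4, a5, a6⟩ := Mp_ne h
  have e : W1 r * (r + 1) = r - 1 := div_mul_cancel₀ _ a2
  refine ⟨W_sum h, ?_, ?_⟩
  · linear_combination W1 r * W_sum h + (1 - W1 r) * W_prod h - W1 r * e
  · rw [mul_assoc, W_prod h, Bb, W1]
    field_simp

theorem Mp_map {L : Type} [Field L] (f : K →+* L) (μ r : K) : f (Mp μ r) = Mp (f μ) (f r) := by
  simp [Mp, map_ofNat]

theorem W1_map {L : Type} [Field L] (f : K →+* L) (r : K) : f (W1 r) = W1 (f r) := by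
  simp [W1]

theorem W2_map {L : Type} [Field L] (f : K →+* L) (μ r : K) : f (W2 μ r) = W2 (f μ) (f r) := by
  simp [W2, map_ofNat]

theorem W3_map {L : Type} [Field L] (f : K →+* L) (μ r : K) : f (W3 μ r) = W3 (f μ) (f r) := by
  simp [W3, map_ofNat]

theorem Bb_map {L : Type} [Field L] (f : K →+* L) (r : K) : f (Bb r) = Bb (f r) := by
  simp [Bb]

end alg

/-- The sextic as an integer polynomial. -/
noncomputable def Mq (m : ℤ) : ℤ[X] :=
  (X ^ 2 - 1) ^ 3 + X * (C m * (X ^ 2 - 1) + 2) * (C m * (X ^ 2 - 1) + 2 * X ^ 2)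

theorem Mq_eq (m : ℤ) : Mq m = X ^ 6 + C (m ^ 2 + 2 * m) * X ^ 5 - 3 * X ^ 4 +
    C (4 - 2 * m ^ 2) * X ^ 3 + 3 * X ^ 2 + C (m ^ 2 - 2 * m) * X - 1 := by
  simp only [Mq, map_add, map_sub, map_mul, map_pow, map_ofNat]
  ring

theorem Mq_monic (m : ℤ) : (Mq m).Monic := by
  rw [Mq_eq]
  monicity!

theorem Mq_natDegree (m : ℤ) : (Mq m).natDegree = 6 := by
  rw [Mq_eq]
  compute_degree!

theorem aeval_Mq {A : Type} [CommRing A] (m : ℤ) (r : A) : aeval r (Mq m) =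
    (r ^ 2 - 1) ^ 3 + r * (m * (r ^ 2 - 1) + 2) * (m * (r ^ 2 - 1) + 2 * r ^ 2) := by
  simp [Mq, map_ofNat]

theorem int_quad {K : Type} [CommRing K] {x a c : K} (ha : IsIntegral ℤ a) (hc : IsIntegral ℤ c)
    (h : x ^ 2 + a * x + c = 0) : IsIntegral ℤ x := by
  refine isIntegral_trans (A := integralClosure ℤ K) x
    ⟨X ^ 2 + C ⟨a, ha⟩ * X + C ⟨c, hc⟩, by monicity!, ?_⟩
  simpa using h

theorem int_poly {K : Type} [CommRing K] {x : K} (h : IsIntegral ℤ x) (p : ℤ[X]) :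
    IsIntegral ℤ (aeval x p) := by
  have : aeval x p ∈ Algebra.adjoin ℤ {x} := Polynomial.aeval_mem_adjoin_singleton ℤ x
  exact (Algebra.adjoin_le (S := integralClosure ℤ K) (Set.singleton_subset_iff.2 h)) this

theorem int_W {K : Type} [Field K] [CharZero K] {m : ℤ} {r : K} (h : Mp (m : K) r = 0) :
    IsIntegral ℤ (W1 r) ∧ IsIntegral ℤ (W2 (m : K) r) ∧ IsIntegral ℤ (W3 (m : K) r) ∧
      IsIntegral ℤ (W1 r)⁻¹ ∧ IsIntegral ℤ (W2 (m : K) r)⁻¹ ∧ IsIntegral ℤ (W3 (m : K) r)⁻¹ := by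
  obtain ⟨a1, a2, a3, a4, a5, a6⟩ := Mp_ne h
  have hd := dat_W h
  have i1 : IsIntegral ℤ r := ⟨Mq m, Mq_monic m, (aeval_Mq m r).trans h⟩
  have i2 : IsIntegral ℤ r⁻¹ := by
    have := int_poly i1 (X ^ 5 + C (m ^ 2 + 2 * m) * X ^ 4 - 3 * X ^ 3 +
      C (4 - 2 * m ^ 2) * X ^ 2 + 3 * X + C (m ^ 2 - 2 * m))
    refine eq_inv_of_mul_eq_one_left (b := r) ?_ ▸ this
    rw [Mp] at h
    simp only [map_add, map_sub, map_mul, map_pow, map_ofNat, aeval_X, aeval_C, eq_intCast,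
      map_intCast]
    push_cast
    linear_combination h
  have ht : W1 r ^ 6 + 4 * m * W1 r ^ 5 + (4 * m ^ 2 - 3) * W1 r ^ 4 - 16 * W1 r ^ 3 +
      (3 - 4 * m ^ 2) * W1 r ^ 2 - 4 * m * W1 r - 1 = 0 := by
    rw [Mp] at h
    rw [W1]
    field_simp
    linear_combination (-16) * h
  have j1 : IsIntegral ℤ (W1 r) := by
    refine ⟨X ^ 6 + C (4 * m) * X ^ 5 + C (4 * m ^ 2 - 3) * X ^ 4 - 16 * X ^ 3 +
      C (3 - 4 * m ^ 2) * X ^ 2 - C (4 * m) * X - 1, by monicity!, ?_⟩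
    rw [← aeval_def]
    simp only [map_add, map_sub, map_mul, map_pow, map_ofNat, aeval_X, aeval_C, eq_intCast,
      map_intCast, map_one]
    push_cast
    exact ht
  have j2 : IsIntegral ℤ (W1 r)⁻¹ := by
    have := int_poly j1 (X ^ 5 + C (4 * m) * X ^ 4 + C (4 * m ^ 2 - 3) * X ^ 3 - 16 * X ^ 2 +
      C (3 - 4 * m ^ 2) * X - C (4 * m))
    refine eq_inv_of_mul_eq_one_left (b := W1 r) ?_ ▸ this
    simp only [map_add, map_sub, map_mul, map_pow, map_ofNat, aeval_X, aeval_C, eq_intCast,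
      map_intCast]
    push_cast
    linear_combination ht
  have k2 : IsIntegral ℤ (W2 (m : K) r) :=
    int_quad (isIntegral_one.add j1) (i1.mul j1)
      (by linear_combination W2 (m : K) r * W_sum h - W_prod h)
  have k3 : IsIntegral ℤ (W3 (m : K) r) :=
    int_quad (isIntegral_one.add j1) (i1.mul j1)
      (by linear_combination W3 (m : K) r * W_sum h - W_prod h)
  have n1 := hd.ne1
  refine ⟨j1, k2, k3, j2, ?_, ?_⟩
  · rw [← eq_inv_of_mul_eq_one_left (a := W3 (m : K) r * (r⁻¹ * (W1 r)⁻¹)) ?_]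
    · exact k3.mul (i2.mul j2)
    · field_simp
      linear_combination W_prod h
  · rw [← eq_inv_of_mul_eq_one_left (a := W2 (m : K) r * (r⁻¹ * (W1 r)⁻¹)) ?_]
    · exact k2.mul (i2.mul j2)
    · field_simp
      linear_combination W_prod h

end Pool.Agent.MP_f3836a_nt.H24
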