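import Pool.Agent.MP_f3836a_nt.H24.Fam

namespace Pool.Agent.MP_f3836a_nt.H24

open Filter Topology

theorem root_near {G : ℝ × ℝ → ℝ} (hG : Continuous G) {c0 : ℝ} {g : ℝ → ℝ}
    (hg : ∀ c, G (c, 0) = (c - c0) * g c) (hc : Continuous g) (h0 : 0 < g c0)
    {P : ℝ × ℝ → Prop} (hS : ∀ᶠ p in 𝓝 (c0, (0 : ℝ)), P p) :
    ∀ᶠ h in 𝓝 (0 : ℝ), ∃ c, P (c, h) ∧ G (c, h) = 0 := by
  obtain ⟨η, hη, h1⟩ := Metric.eventually_nhds_iff.1
    (hS.and ((continuous_fst.tendsto (c0, (0 : ℝ))).eventually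
      (hc.continuousAt.eventually (lt_mem_nhds h0))))
  have k : ∀ c h : ℝ, |c - c0| ≤ η / 2 → |h| < η → P (c, h) ∧ 0 < g c := by
    intro c h a b
    refine h1 (y := (c, h)) ?_
    rw [Prod.dist_eq, Real.dist_eq, Real.dist_eq, sub_zero]
    exact max_lt (by linarith) b
  have a1 : G (c0 - η / 2, 0) < 0 := by
    rw [hg]
    exact mul_neg_of_neg_of_pos (by linarith)
      (k _ 0 (by rw [abs_le]; constructor <;> linarith) (by simpa using hη)).2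
  have a2 : 0 < G (c0 + η / 2, 0) := by
    rw [hg]
    exact mul_pos (by linarith)
      (k _ 0 (by rw [abs_le]; constructor <;> linarith) (by simpa using hη)).2
  have c1 : ∀ c : ℝ, Continuous fun h : ℝ => G (c, h) := fun c => by fun_prop
  filter_upwards [(c1 (c0 - η / 2)).continuousAt.eventually (gt_mem_nhds a1),
    (c1 (c0 + η / 2)).continuousAt.eventually (lt_mem_nhds a2),
    Metric.ball_mem_nhds (0 : ℝ) hη] with h b1 b2 b3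
  have c2 : Continuous fun c : ℝ => G (c, h) := by fun_prop
  obtain ⟨c, e1, e2⟩ := intermediate_value_Icc (show c0 - η / 2 ≤ c0 + η / 2 by linarith)
    c2.continuousOn ⟨b1.le, b2.le⟩
  refine ⟨c, (k c h ?_ (by simpa using b3)).1, e2⟩
  rw [abs_le]
  constructor <;> linarith [e1.1, e1.2]

theorem ev_lt {f : ℝ × ℝ → ℝ} {p : ℝ × ℝ} {a ε : ℝ} (hf : ContinuousAt f p) (h : f p = a)
    (hε : 0 < ε) : ∀ᶠ q in 𝓝 p, |f q - a| < ε := by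
  have := hf.eventually (Metric.ball_mem_nhds _ hε)
  simpa only [h, Real.dist_eq] using this

variable {ε : ℝ}

theorem cusp1 (hε : 0 < ε) : ∀ᶠ h in 𝓝 (0 : ℝ), h ≠ 0 → ∃ r : ℝ, Mp h⁻¹ r = 0 ∧
    |W1 r - 1| < ε ∧ |(W2 h⁻¹ r)⁻¹| < ε ∧ |Bb r| < ε := by
  have s1 := ev_lt (f := fun p => (1 - p.1 * p.2 ^ 2) / (1 + p.1 * p.2 ^ 2)) (p := (-1, 0)) (a := 1)
    (by fun_prop (disch := norm_num)) (by norm_num) hε
  have s2 := ev_lt (f := fun p => (1 + p.1 * p.2 ^ 2) * (1 - (p.1 * p.2 ^ 2) ^ 2) * p.2 /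
    (1 - (p.1 * p.2 ^ 2) ^ 2 + 2 * p.2 * (p.1 * p.2 ^ 2) ^ 2)) (p := (-1, 0)) (a := 0)
    (by fun_prop (disch := norm_num)) (by norm_num) hε
  have s3 := ev_lt (f := fun p => (1 + p.1 * p.2 ^ 2) ^ 2 * (p.1 * p.2 ^ 2) /
    (1 - p.1 * p.2 ^ 2) ^ 2) (p := (-1, 0)) (a := 0)
    (by fun_prop (disch := norm_num)) (by norm_num) hε
  have s4 := ev_lt (f := fun p => p.1) (p := (-1, 0)) (a := -1) (by fun_prop) rfl one_pos
  filter_upwards [root_near (G := fun p => (1 - (p.1 * p.2 ^ 2) ^ 2) ^ 3 +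
    p.1 * (1 - (p.1 * p.2 ^ 2) ^ 2 + 2 * p.2 * (p.1 * p.2 ^ 2) ^ 2) *
      (1 - (p.1 * p.2 ^ 2) ^ 2 + 2 * p.2)) (by fun_prop) (c0 := -1) (g := fun _ => 1)
    (fun c => by ring) continuous_const one_pos (s1.and (s2.and (s3.and s4)))] with h H h0
  obtain ⟨c, ⟨p1, p2, p3, p4⟩, e⟩ := H
  have c0 : c ≠ 0 := by
    rintro rfl
    simp at p4
  simp only [sub_zero] at p1 p2 p3 e
  have q0 : c * h ^ 2 ≠ 0 := by positivity
  have hM : Mp h⁻¹ (c * h ^ 2)⁻¹ = 0 := by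
    rw [Mp]
    field_simp
    linear_combination e
  refine ⟨(c * h ^ 2)⁻¹, hM, ?_, ?_, ?_⟩
  · refine lt_of_eq_of_lt ?_ p1
    generalize c * h ^ 2 = q at q0
    rw [W1, ← mul_div_mul_left _ _ q0]
    congr 3 <;> field_simp
  · refine lt_of_eq_of_lt ?_ p2
    generalize c * h ^ 2 = q at q0
    rw [W2, inv_div, ← mul_div_mul_left _ _ (show h * q ^ 3 ≠ 0 by positivity)]
    congr 2 <;> field_simp
  · refine lt_of_eq_of_lt ?_ p3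
    generalize c * h ^ 2 = q at q0
    rw [Bb, ← mul_div_mul_left _ _ (show q ^ 3 ≠ 0 by positivity)]
    congr 2 <;> field_simp

theorem cusp4 (hε : 0 < ε) : ∀ᶠ h in 𝓝 (0 : ℝ), h ≠ 0 → ∃ r : ℝ, Mp h⁻¹ r = 0 ∧
    |-(W1 r)⁻¹ - 1| < ε ∧ |(-(W2 h⁻¹ r)⁻¹)⁻¹| < ε := by
  have s1 := ev_lt (f := fun p => -((p.1 * p.2 ^ 2 + 1) / (p.1 * p.2 ^ 2 - 1))) (p := (1, 0))
    (a := 1) (by fun_prop (disch := norm_num)) (by norm_num) hε
  have s2 := ev_lt (f := fun p => p.1 * p.2 * ((p.1 * p.2 ^ 2) ^ 2 - 1 + 2 * p.2) /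
    ((p.1 * p.2 ^ 2 + 1) * ((p.1 * p.2 ^ 2) ^ 2 - 1))) (p := (1, 0)) (a := 0)
    (by fun_prop (disch := norm_num)) (by norm_num) hε
  filter_upwards [root_near (G := fun p => ((p.1 * p.2 ^ 2) ^ 2 - 1) ^ 3 +
    p.1 * ((p.1 * p.2 ^ 2) ^ 2 - 1 + 2 * p.2) *
      ((p.1 * p.2 ^ 2) ^ 2 - 1 + 2 * p.2 * (p.1 * p.2 ^ 2) ^ 2)) (by fun_prop) (c0 := 1)
    (g := fun _ => 1) (fun c => by ring) continuous_const one_pos (s1.and s2)] with h H h0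
  obtain ⟨c, ⟨p1, p2⟩, e⟩ := H
  simp only [sub_zero] at p1 p2 e
  have hM : Mp h⁻¹ (c * h ^ 2) = 0 := by
    rw [Mp]
    field_simp
    linear_combination e
  refine ⟨c * h ^ 2, hM, ?_, ?_⟩
  · rwa [W1, inv_div]
  · refine lt_of_eq_of_lt ?_ p2
    rw [inv_neg, inv_inv, abs_neg, W2]
    congr 2
    field_simp

/-- Expansion of `r ^ 2 - 1`. -/
def rh (p : ℝ × ℝ) : ℝ := -2 + (1 + 2 * p.1) * p.2 - 2 * p.1 * p.2 ^ 2 + p.1 ^ 2 * p.2 ^ 3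

/-- Expansion of the first linear factor. -/
def ss (p : ℝ × ℝ) : ℝ := 1 + 2 * p.1 - 2 * p.1 * p.2 + p.1 ^ 2 * p.2 ^ 2

/-- The root up to sign. -/
def rr (p : ℝ × ℝ) : ℝ := 1 - p.2 + p.1 * p.2 ^ 2

theorem exp_pm {e c h : ℝ} (he : e ^ 2 = 1) (h0 : h ≠ 0) :
    (e * rr (c, h)) ^ 2 - 1 = h * rh (c, h) ∧
      h⁻¹ * ((e * rr (c, h)) ^ 2 - 1) + 2 = h * ss (c, h) ∧
      h⁻¹ * ((e * rr (c, h)) ^ 2 - 1) + 2 * (e * rr (c, h)) ^ 2 =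
        h * (ss (c, h) + 2 * rh (c, h)) := by
  rw [mul_pow, he, one_mul]
  simp only [rr, rh, ss]
  refine ⟨by ring, ?_, ?_⟩ <;> field_simp <;> ring

theorem root_pm {e c0 k : ℝ} (he : e ^ 2 = 1) {g : ℝ → ℝ} (hk : k ≠ 0)
    (hg : ∀ c, k * (e * (1 + 2 * c) * (2 * c - 3)) = (c - c0) * g c) (hc : Continuous g)
    (h0 : 0 < g c0) {P : ℝ × ℝ → Prop} (hS : ∀ᶠ p in 𝓝 (c0, (0 : ℝ)), P p) :
    ∀ᶠ h in 𝓝 (0 : ℝ), h ≠ 0 → ∃ c, P (c, h) ∧ Mp h⁻¹ (e * rr (c, h)) = 0 := by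
  filter_upwards [root_near (G := fun p => k * (p.2 * rh p ^ 3 + e * rr p * ss p * (ss p + 2 * rh p)))
    (by unfold rh rr ss; fun_prop) (c0 := c0) (g := g)
    (fun c => by rw [← hg]; simp only [rh, rr, ss]; ring) hc h0 hS] with h H h1
  obtain ⟨c, p, a⟩ := H
  refine ⟨c, p, ?_⟩
  obtain ⟨e1, e2, e3⟩ := exp_pm (c := c) he h1
  have b := (mul_eq_zero.1 a).resolve_left hk
  rw [Mp, e2, e3, e1]
  linear_combination h ^ 2 * b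

theorem cusp2 (hε : 0 < ε) : ∀ᶠ h in 𝓝 (0 : ℝ), h ≠ 0 → ∃ r : ℝ, Mp h⁻¹ r = 0 ∧
    |W2 h⁻¹ r - 1| < ε ∧ |(W3 h⁻¹ r)⁻¹| < ε := by
  have s1 := ev_lt (f := fun p => -((-1 * rr p - 1) * rh p) / (ss p + 2 * rh p)) (p := (-1 / 2, 0))
    (a := 1) (by unfold rh rr ss; fun_prop (disch := norm_num)) (by norm_num [rh, rr, ss]) hε
  have s2 := ev_lt (f := fun p => (-1 * rr p + 1) * rh p / -(-1 * rr p * (ss p + 2 * rh p)))
    (p := (-1 / 2, 0)) (a := 0) (by unfold rh rr ss; fun_prop (disch := norm_num))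
    (by norm_num [rh, rr, ss]) hε
  filter_upwards [root_pm (e := -1) (k := 1) (c0 := -1 / 2) (g := fun c => 2 * (3 - 2 * c))
    (by norm_num) one_ne_zero (fun c => by ring) (by fun_prop) (by norm_num) (s1.and s2)]
    with h H h0
  obtain ⟨c, ⟨p1, p2⟩, hM⟩ := H h0
  obtain ⟨e1, e2, e3⟩ := exp_pm (e := -1) (c := c) (by norm_num) h0
  refine ⟨_, hM, lt_of_eq_of_lt ?_ p1, lt_of_eq_of_lt ?_ p2⟩
  · rw [W2_alt hM, e3, e1, ← mul_div_mul_left _ (ss (c, h) + 2 * rh (c, h)) h0]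
    congr 3
    ring
  · rw [W3, e3, e1, inv_div, sub_zero,
      ← mul_div_mul_left _ (-(-1 * rr (c, h) * (ss (c, h) + 2 * rh (c, h)))) h0]
    congr 2 <;> ring

theorem cusp3 (hε : 0 < ε) : ∀ᶠ h in 𝓝 (0 : ℝ), h ≠ 0 → ∃ r : ℝ, Mp h⁻¹ r = 0 ∧
    |W3 h⁻¹ r - 1| < ε ∧ |(W1 r)⁻¹| < ε := by
  have s1 := ev_lt (f := fun p => (-1 * rr p - 1) * rh p / ss p) (p := (3 / 2, 0))
    (a := 1) (by unfold rh rr ss; fun_prop (disch := norm_num)) (by norm_num [rh, rr, ss]) hε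
  have s2 := ev_lt (f := fun p => (-1 * rr p + 1) / (-1 * rr p - 1))
    (p := (3 / 2, 0)) (a := 0) (by unfold rr; fun_prop (disch := norm_num))
    (by norm_num [rr]) hε
  filter_upwards [root_pm (e := -1) (k := -1) (c0 := 3 / 2) (g := fun c => 2 * (1 + 2 * c))
    (by norm_num) (by norm_num) (fun c => by ring) (by fun_prop) (by norm_num) (s1.and s2)]
    with h H h0
  obtain ⟨c, ⟨p1, p2⟩, hM⟩ := H h0
  obtain ⟨e1, e2, e3⟩ := exp_pm (e := -1) (c := c) (by norm_num) h0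
  refine ⟨_, hM, lt_of_eq_of_lt ?_ p1, lt_of_eq_of_lt ?_ p2⟩
  · rw [W3_alt hM, e2, e1, ← mul_div_mul_left _ (ss (c, h)) h0]
    congr 3
    ring
  · rw [W1, inv_div, sub_zero]

theorem cusp5 (hε : 0 < ε) : ∀ᶠ h in 𝓝 (0 : ℝ), h ≠ 0 → ∃ r : ℝ, Mp h⁻¹ r = 0 ∧
    |-(W2 h⁻¹ r)⁻¹ - 1| < ε ∧ |(-(W3 h⁻¹ r)⁻¹)⁻¹| < ε := by
  have s1 := ev_lt (f := fun p => -((1 * rr p + 1) * rh p / (1 * rr p * ss p))) (p := (3 / 2, 0))
    (a := 1) (by unfold rh rr ss; fun_prop (disch := norm_num)) (by norm_num [rh, rr, ss]) hε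
  have s2 := ev_lt (f := fun p => (1 * rr p - 1) * rh p / ss p)
    (p := (3 / 2, 0)) (a := 0) (by unfold rh rr ss; fun_prop (disch := norm_num))
    (by norm_num [rh, rr, ss]) hε
  filter_upwards [root_pm (e := 1) (k := 1) (c0 := 3 / 2) (g := fun c => 2 * (1 + 2 * c))
    (by norm_num) (by norm_num) (fun c => by ring) (by fun_prop) (by norm_num) (s1.and s2)]
    with h H h0
  obtain ⟨c, ⟨p1, p2⟩, hM⟩ := H h0
  obtain ⟨e1, e2, e3⟩ := exp_pm (e := 1) (c := c) (by norm_num) h0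
  refine ⟨_, hM, lt_of_eq_of_lt ?_ p1, lt_of_eq_of_lt ?_ p2⟩
  · rw [W2, e2, e1, inv_div, ← mul_div_mul_left _ (1 * rr (c, h) * ss (c, h)) h0]
    congr 4 <;> ring
  · rw [inv_neg, inv_inv, abs_neg, W3_alt hM, e2, e1, sub_zero,
      ← mul_div_mul_left _ (ss (c, h)) h0]
    congr 2
    ring

theorem cusp6 (hε : 0 < ε) : ∀ᶠ h in 𝓝 (0 : ℝ), h ≠ 0 → ∃ r : ℝ, Mp h⁻¹ r = 0 ∧
    |-(W3 h⁻¹ r)⁻¹ - 1| < ε ∧ |(-(W1 r)⁻¹)⁻¹| < ε := by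
  have s1 := ev_lt (f := fun p => -((1 * rr p + 1) * rh p / -(1 * rr p * (ss p + 2 * rh p))))
    (p := (-1 / 2, 0))
    (a := 1) (by unfold rh rr ss; fun_prop (disch := norm_num)) (by norm_num [rh, rr, ss]) hε
  have s2 := ev_lt (f := fun p => (1 * rr p - 1) / (1 * rr p + 1))
    (p := (-1 / 2, 0)) (a := 0) (by unfold rr; fun_prop (disch := norm_num))
    (by norm_num [rr]) hε
  filter_upwards [root_pm (e := 1) (k := -1) (c0 := -1 / 2) (g := fun c => 2 * (3 - 2 * c))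
    (by norm_num) (by norm_num) (fun c => by ring) (by fun_prop) (by norm_num) (s1.and s2)]
    with h H h0
  obtain ⟨c, ⟨p1, p2⟩, hM⟩ := H h0
  obtain ⟨e1, e2, e3⟩ := exp_pm (e := 1) (c := c) (by norm_num) h0
  refine ⟨_, hM, lt_of_eq_of_lt ?_ p1, lt_of_eq_of_lt ?_ p2⟩
  · rw [W3, e3, e1, inv_div,
      ← mul_div_mul_left _ (-(1 * rr (c, h) * (ss (c, h) + 2 * rh (c, h)))) h0]
    congr 4 <;> ring
  · rw [inv_neg, inv_inv, abs_neg, W1, sub_zero]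

end Pool.Agent.MP_f3836a_nt.H24
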