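import Pool.Agent.MP_f3836a_nt.H24.FF
import Pool.Agent.MP_f3836a_nt.H24.Roots

namespace Pool.Agent.MP_f3836a_nt.H24

open Pool.Agent.MP_f3836a_nt.H23
open Polynomial NumberField Filter Topology
open scoped IntermediateField

section types

variable {u : ℝ}

theorem notAB (a : |u - 1| < 1 / 4) (b : |u⁻¹| < 1 / 4) : False := by
  obtain ⟨a1, a2⟩ := abs_lt.1 a
  have h : u * u⁻¹ = 1 := mul_inv_cancel₀ (by linarith)
  nlinarith [(abs_lt.1 b).2]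

theorem notAC (a : |u - 1| < 1 / 4) (c : |-u⁻¹ - 1| < 1 / 4) : False := by
  obtain ⟨a1, a2⟩ := abs_lt.1 a
  have h : 0 < u⁻¹ := inv_pos.2 (by linarith)
  linarith [(abs_lt.1 c).1]

theorem notAD (a : |u - 1| < 1 / 4) (d : |(-u⁻¹)⁻¹| < 1 / 4) : False := by
  rw [inv_neg, inv_inv, abs_neg] at d
  linarith [(abs_lt.1 a).1, (abs_lt.1 d).2]

theorem notBC (b : |u⁻¹| < 1 / 4) (c : |-u⁻¹ - 1| < 1 / 4) : False := by
  linarith [(abs_lt.1 b).1, (abs_lt.1 c).1]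

theorem notCD (c : |-u⁻¹ - 1| < 1 / 4) (d : |(-u⁻¹)⁻¹| < 1 / 4) : False := notAB c d

end types

theorem Near.mono {K : Type} [Field K] {ε ε' : ℝ} (h : ε ≤ ε') {σ : K →+* ℝ} {w w' : K}
    (n : Near ε σ w w') : Near ε' σ w w' := ⟨n.1.trans_le h, n.2.trans_le h⟩

theorem tot_real {K : Type} [Field K] [NumberField K] (hK : Module.finrank ℚ K = 6) {w1 w2 w3 : K}
    {σ1 σ2 σ3 σ4 σ5 σ6 : K →+* ℝ} (n1 : Near (1 / 4) σ1 w1 w2) (n2 : Near (1 / 4) σ2 w2 w3)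
    (n3 : Near (1 / 4) σ3 w3 w1) (n4 : Near (1 / 4) σ4 (-w1⁻¹) (-w2⁻¹))
    (n5 : Near (1 / 4) σ5 (-w2⁻¹) (-w3⁻¹)) (n6 : Near (1 / 4) σ6 (-w3⁻¹) (-w1⁻¹)) :
    IsTotallyReal K := by
  classical
  simp only [Near, map_inv₀, map_neg] at n1 n2 n3 n4 n5 n6
  have d12 : σ1 ≠ σ2 := by rintro rfl; exact notAB n2.1 n1.2
  have d13 : σ1 ≠ σ3 := by rintro rfl; exact notAB n1.1 n3.2
  have d14 : σ1 ≠ σ4 := by rintro rfl; exact notAC n1.1 n4.1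
  have d15 : σ1 ≠ σ5 := by rintro rfl; exact notBC n1.2 n5.1
  have d16 : σ1 ≠ σ6 := by rintro rfl; exact notAD n1.1 n6.2
  have d23 : σ2 ≠ σ3 := by rintro rfl; exact notAB n3.1 n2.2
  have d24 : σ2 ≠ σ4 := by rintro rfl; exact notAD n2.1 n4.2
  have d25 : σ2 ≠ σ5 := by rintro rfl; exact notAC n2.1 n5.1
  have d26 : σ2 ≠ σ6 := by rintro rfl; exact notBC n2.2 n6.1
  have d34 : σ3 ≠ σ4 := by rintro rfl; exact notBC n3.2 n4.1
  have d35 : σ3 ≠ σ5 := by rintro rfl; exact notAD n3.1 n5.2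
  have d36 : σ3 ≠ σ6 := by rintro rfl; exact notAC n3.1 n6.1
  have d45 : σ4 ≠ σ5 := by rintro rfl; exact notCD n5.1 n4.2
  have d46 : σ4 ≠ σ6 := by rintro rfl; exact notCD n4.1 n6.2
  have d56 : σ5 ≠ σ6 := by rintro rfl; exact notCD n6.1 n5.2
  have nd : [σ1, σ2, σ3, σ4, σ5, σ6].Nodup := by
    simp [d12, d13, d14, d15, d16, d23, d24, d25, d26, d34, d35, d36, d45, d46, d56]
  have inj : Function.Injective fun σ : K →+* ℝ => Complex.ofRealHom.comp σ := by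
    intro σ τ h
    ext x
    exact Complex.ofReal_injective (DFunLike.congr_fun h x)
  have hc : ([σ1, σ2, σ3, σ4, σ5, σ6].toFinset.image
      fun σ : K →+* ℝ => Complex.ofRealHom.comp σ) = Finset.univ := by
    apply Finset.eq_univ_of_card
    rw [Finset.card_image_of_injective _ inj, List.toFinset_card_of_nodup nd, Embeddings.card, hK]
    rfl
  refine ⟨fun v => ?_⟩
  rw [InfinitePlace.isReal_iff, ComplexEmbedding.isReal_iff]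
  obtain ⟨σ, -, hσ⟩ := Finset.mem_image.1 (hc ▸ Finset.mem_univ v.embedding)
  rw [← hσ]
  ext x
  simp

theorem j_big (B : ℝ) : ∃ η : ℝ, 0 < η ∧ ∀ b : ℝ, |b| < η → b ^ 2 - 11 * b - 1 ≠ 0 ∧ ∀ j : ℝ,
    j * (b ^ 5 * (b ^ 2 - 11 * b - 1)) = (b ^ 4 - 12 * b ^ 3 + 14 * b ^ 2 + 12 * b + 1) ^ 3 →
    B < |j| := by
  have c1 : ContinuousAt (fun b : ℝ => b ^ 2 - 11 * b - 1) 0 := by fun_prop
  have c2 : ContinuousAt (fun b : ℝ => |(b ^ 4 - 12 * b ^ 3 + 14 * b ^ 2 + 12 * b + 1) ^ 3| -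
      |B| * |b ^ 5 * (b ^ 2 - 11 * b - 1)|) 0 := by fun_prop
  obtain ⟨η, h0, h⟩ := Metric.eventually_nhds_iff.1 ((c1.eventually_ne (y := 0) (by norm_num)).and
    (c2.eventually (lt_mem_nhds (a := 0) (by norm_num))))
  refine ⟨η, h0, fun b hb => ?_⟩
  obtain ⟨h1, h2⟩ := h (y := b) (by simpa using hb)
  refine ⟨h1, fun j hj => ?_⟩
  rw [← hj, abs_mul j, ← sub_mul] at h2
  have : 0 < |j| - |B| := by
    by_contra k
    exact absurd h2 (not_lt.2 (mul_nonpos_of_nonpos_of_nonneg (not_lt.1 k) (abs_nonneg _)))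
  linarith [le_abs_self B]

theorem exists_field {m : ℤ} (hm : (m : ZMod 11) = -2) : ∃ (K : Type) (_ : Field K)
    (_ : NumberField K) (r : K), Mp (m : K) r = 0 ∧ Module.finrank ℚ K = 6 := by
  obtain ⟨z, hz⟩ := IsAlgClosed.exists_aeval_eq_zero ℂ (Mr m) (by
    rw [degree_eq_natDegree (Mr_monic m).ne_zero, Mr_natDegree]
    norm_num)
  have hi : IsIntegral ℚ z := ⟨Mr m, Mr_monic m, hz⟩
  have hmin := minpoly.eq_of_irreducible_of_monic (Mr_irr hm) hz (Mr_monic m)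
  have : FiniteDimensional ℚ ℚ⟮z⟯ := IntermediateField.adjoin.finiteDimensional hi
  refine ⟨ℚ⟮z⟯, inferInstance, ⟨⟩, IntermediateField.AdjoinSimple.gen ℚ z, ?_, ?_⟩
  · apply (algebraMap ℚ⟮z⟯ ℂ).injective
    rw [Mp_map, map_intCast, map_zero, IntermediateField.AdjoinSimple.algebraMap_gen, ← aeval_Mr, hz]
  · rw [IntermediateField.adjoin.finrank hi, ← hmin, Mr_natDegree]

theorem member (B : ℝ) : ∃ (f : ℚ[X]) (z : ℝ), aeval z f = 0 ∧ B < |z| ∧ f.natDegree = 6 ∧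
    Nonempty (f.Gal ≃* Equiv.Perm (Fin 6)) ∧
    ∃ (K : Type) (_ : Field K) (_ : NumberField K) (E : WeierstrassCurve K) (_ : E.IsElliptic),
      Module.finrank ℚ K = 6 ∧ IsTotallyReal K ∧ minpoly ℚ E.j = f ∧
        6 ≤ rankK2ur E.toAffine.FunctionField := by
  obtain ⟨ε0, h0, hrank⟩ := rank_six
  obtain ⟨η, h1, hbig⟩ := j_big B
  set ε := min ε0 (min η (1 / 4)) with hε
  have hp : 0 < ε := lt_min h0 (lt_min h1 (by norm_num))
  have l1 : ε ≤ ε0 := min_le_left _ _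
  have l2 : ε ≤ η := (min_le_right _ _).trans (min_le_left _ _)
  have l3 : ε ≤ 1 / 4 := (min_le_right _ _).trans (min_le_right _ _)
  have t1 : Tendsto (fun n : ℕ => (((86 + 473 * (n : ℤ) : ℤ) : ℝ))⁻¹) atTop (𝓝 0) := by
    refine tendsto_inv_atTop_zero.comp ?_
    push_cast
    exact tendsto_atTop_add_const_left _ _
      (tendsto_natCast_atTop_atTop.const_mul_atTop (by norm_num))
  obtain ⟨n, c1, c2, c3, c4, c5, c6⟩ := (t1.eventually ((cusp1 hp).and ((cusp2 hp).and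
    ((cusp3 hp).and ((cusp4 hp).and ((cusp5 hp).and (cusp6 hp))))))).exists
  have hm : ((86 + 473 * (n : ℤ) : ℤ) : ZMod 11) = -2 := by
    push_cast
    rw [show (473 : ZMod 11) = 0 from rfl, zero_mul]
    rfl
  have hm' : ((86 + 473 * (n : ℤ) : ℤ) : ZMod 43) = 0 := by
    push_cast
    rw [show (473 : ZMod 43) = 0 from rfl, zero_mul]
    rfl
  have hn : (((86 + 473 * (n : ℤ) : ℤ) : ℝ))⁻¹ ≠ 0 := by
    push_cast
    positivity
  generalize (86 + 473 * (n : ℤ) : ℤ) = m at *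
  rw [inv_inv] at c1 c2 c3 c4 c5 c6
  obtain ⟨K, _, _, r, hr, hK⟩ := exists_field hm
  obtain ⟨r1, a1, p1, q1, s1⟩ := c1 hn
  obtain ⟨r2, a2, p2, q2⟩ := c2 hn
  obtain ⟨r3, a3, p3, q3⟩ := c3 hn
  obtain ⟨r4, a4, p4, q4⟩ := c4 hn
  obtain ⟨r5, a5, p5, q5⟩ := c5 hn
  obtain ⟨r6, a6, p6, q6⟩ := c6 hn
  have emb : ∀ ρ : ℝ, Mp (m : ℝ) ρ = 0 → ∃ σ : K →+* ℝ, σ (W1 r) = W1 ρ ∧
      σ (W2 (m : K) r) = W2 (m : ℝ) ρ ∧ σ (W3 (m : K) r) = W3 (m : ℝ) ρ ∧ σ (Bb r) = Bb ρ := by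
    intro ρ hρ
    obtain ⟨σ, hσ⟩ := exists_emb hm hr hK hρ
    have e : σ.toRingHom r = ρ := hσ
    exact ⟨σ.toRingHom, by rw [W1_map, e], by rw [W2_map, e, map_intCast],
      by rw [W3_map, e, map_intCast], by rw [Bb_map, e]⟩
  obtain ⟨σ1, e11, e12, -, e14⟩ := emb r1 a1
  obtain ⟨σ2, -, e22, e23, -⟩ := emb r2 a2
  obtain ⟨σ3, e31, -, e33, -⟩ := emb r3 a3
  obtain ⟨σ4, e41, e42, -, -⟩ := emb r4 a4
  obtain ⟨σ5, -, e52, e53, -⟩ := emb r5 a5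
  obtain ⟨σ6, e61, -, e63, -⟩ := emb r6 a6
  have n1 : Near ε σ1 (W1 r) (W2 (m : K) r) := ⟨by rwa [e11], by rwa [map_inv₀, e12]⟩
  have n2 : Near ε σ2 (W2 (m : K) r) (W3 (m : K) r) := ⟨by rwa [e22], by rwa [map_inv₀, e23]⟩
  have n3 : Near ε σ3 (W3 (m : K) r) (W1 r) := ⟨by rwa [e33], by rwa [map_inv₀, e31]⟩
  have n4 : Near ε σ4 (-(W1 r)⁻¹) (-(W2 (m : K) r)⁻¹) :=
    ⟨by rwa [map_neg, map_inv₀, e41], by rwa [map_inv₀, map_neg, map_inv₀, e42]⟩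
  have n5 : Near ε σ5 (-(W2 (m : K) r)⁻¹) (-(W3 (m : K) r)⁻¹) :=
    ⟨by rwa [map_neg, map_inv₀, e52], by rwa [map_inv₀, map_neg, map_inv₀, e53]⟩
  have n6 : Near ε σ6 (-(W3 (m : K) r)⁻¹) (-(W1 r)⁻¹) :=
    ⟨by rwa [map_neg, map_inv₀, e63], by rwa [map_inv₀, map_neg, map_inv₀, e61]⟩
  have hd := dat_W hr
  obtain ⟨g1, g2⟩ := hbig (σ1 (Bb r)) (by rw [e14]; exact s1.trans_le l2)
  have hell : (Eb (Bb r)).IsElliptic := ⟨by
    rw [Eb_Δ, isUnit_iff_ne_zero]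
    refine mul_ne_zero (pow_ne_zero 5 hd.b_ne) fun c => g1 ?_
    simpa [map_ofNat] using congrArg σ1 c⟩
  have hj := Eb_j (Bb r)
  obtain ⟨k1, k2⟩ := gal_j hm hm' hr hK hj
  obtain ⟨i1, i2, i3, j1, j2, j3⟩ := int_W hr
  obtain ⟨x, y, hx, hgen, hE⟩ := ff_gen (Eb (Bb r))
  refine ⟨minpoly ℚ (Eb (Bb r)).j, σ1 (Eb (Bb r)).j, ?_, g2 _ ?_, k1, k2, K, inferInstance,
    inferInstance, Eb (Bb r), hell, hK, tot_real hK (n1.mono l3) (n2.mono l3) (n3.mono l3)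
      (n4.mono l3) (n5.mono l3) (n6.mono l3), rfl,
    hrank K _ _ _ _ hd i1 i2 i3 j1 j2 j3 σ1 σ2 σ3 σ4 σ5 σ6 (n1.mono l1) (n2.mono l1) (n3.mono l1)
      (n4.mono l1) (n5.mono l1) (n6.mono l1) _ x y hx hgen ?_⟩
  · have := aeval_algHom_apply σ1.toRatAlgHom (Eb (Bb r)).j (minpoly ℚ (Eb (Bb r)).j)
    rw [minpoly.aeval, map_zero] at this
    exact this
  · simpa [map_ofNat] using congrArg σ1 hj
  · rw [show (Eb (Bb r)).a₁ = 1 - Bb r from rfl, show (Eb (Bb r)).a₂ = -Bb r from rfl,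
      show (Eb (Bb r)).a₃ = -Bb r from rfl, show (Eb (Bb r)).a₄ = 0 from rfl,
      show (Eb (Bb r)).a₆ = 0 from rfl, map_sub, map_one, map_neg, map_zero] at hE
    linear_combination hE

theorem main : Set.Infinite {f : ℚ[X] | f.natDegree = 6 ∧ Nonempty (f.Gal ≃* Equiv.Perm (Fin 6)) ∧
    ∃ (K : Type) (_ : Field K) (_ : NumberField K) (E : WeierstrassCurve K) (_ : E.IsElliptic),
      Module.finrank ℚ K = 6 ∧ IsTotallyReal K ∧ minpoly ℚ E.j = f ∧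
        6 ≤ rankK2ur E.toAffine.FunctionField} := by
  intro hfin
  obtain ⟨B, hB⟩ := ((hfin.biUnion fun f _ => rootSet_finite f ℝ).image fun z : ℝ => |z|).bddAbove
  obtain ⟨f, z, h1, h2, h3⟩ := member B
  have f0 : f ≠ 0 := by
    rintro rfl
    simpa using h3.1
  exact absurd h2 (not_lt.2 (hB ⟨z, Set.mem_biUnion h3 ((mem_rootSet_of_ne f0).2 h1), rfl⟩))

end Pool.Agent.MP_f3836a_nt.H24
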