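import Pool.Agent.MP_f3836a_nt.H24.Irr

namespace Pool.Agent.MP_f3836a_nt.H24

open Polynomial NumberField

theorem frob (L : Type) [Field L] [NumberField L] [IsGalois ℚ L] (p : ℕ) [hp : Fact p.Prime] :
    ∃ (k : Type) (_ : Field k) (_ : CharP k p) (π : 𝓞 L →+* k) (σ : L ≃ₐ[ℚ] L),
      ∀ x, π (σ • x) = π x ^ p := by
  have hP : (Ideal.span {(p : ℤ)}).IsMaximal :=
    PrincipalIdealRing.isMaximal_of_irreducible (Nat.prime_iff_prime_int.1 hp.out).irreducible
  obtain ⟨Q, hQ, hl⟩ :=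
    Ideal.exists_maximal_ideal_liesOver_of_isIntegral (S := 𝓞 L) (Ideal.span {(p : ℤ)})
  have hu : Q.under ℤ = Ideal.span {(p : ℤ)} := hl.over.symm
  have hpQ : ((p : ℤ) : 𝓞 L) ∈ Q := by
    have : (p : ℤ) ∈ Q.under ℤ := hu ▸ Ideal.mem_span_singleton_self _
    simpa [Ideal.mem_comap] using this
  have hb : Q ≠ ⊥ := by
    intro c
    rw [c, Ideal.mem_bot] at hpQ
    exact hp.out.ne_zero (by exact_mod_cast hpQ)
  have : Finite (𝓞 L ⧸ Q) := Ideal.finiteQuotientOfFreeOfNeBot Q hb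
  obtain ⟨σ, hσ⟩ := IsArithFrobAt.exists_of_isInvariant ℤ (L ≃ₐ[ℚ] L) Q
  let : Field (𝓞 L ⧸ Q) := Ideal.Quotient.field Q
  refine ⟨𝓞 L ⧸ Q, inferInstance, ?_, Ideal.Quotient.mk Q, σ, fun x => ?_⟩
  · rw [CharP.charP_iff_prime_eq_zero hp.out]
    have := Ideal.Quotient.eq_zero_iff_mem.2 hpQ
    simpa using this
  · have := hσ.mk_apply x
    rw [hu, Nat.card_congr (Int.quotientSpanNatEquivZMod p).toEquiv, Nat.card_zmod] at this
    exact this

theorem perm_top {Ω : Type} [Fintype Ω] [DecidableEq Ω] (hc : Fintype.card Ω = 6)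
    (H : Subgroup (Equiv.Perm Ω)) (ht : ∀ a b : Ω, ∃ t ∈ H, t a = b)
    {τ c : Equiv.Perm Ω} (hτ : τ.IsSwap) (hτH : τ ∈ H) (h5 : orderOf c = 5) (hcH : c ∈ H) :
    H = ⊤ := by
  have cyc : c.IsCycle :=
    Equiv.Perm.isCycle_of_prime_order' (by rw [h5]; norm_num) (by rw [h5, hc]; norm_num)
  have hs : c.supportᶜ.card = 1 := by rw [Finset.card_compl, ← cyc.orderOf, h5, hc]
  obtain ⟨o, ho⟩ := Finset.card_eq_one.1 hs
  have ho' : ∀ y, c y = y ↔ y = o := fun y => by
    rw [← Finset.mem_singleton (a := o), ← ho, Finset.mem_compl, Equiv.Perm.notMem_support]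
  obtain ⟨a, b, hab, rfl⟩ := hτ
  obtain ⟨t, htH, hta⟩ := ht a o
  have s1 : Equiv.swap o (t b) ∈ H := by
    rw [← hta, Equiv.swap_apply_apply]
    exact H.mul_mem (H.mul_mem htH hτH) (H.inv_mem htH)
  have tb : t b ≠ o := fun e => hab (t.injective (hta.trans e.symm))
  have s2 : ∀ y, Equiv.swap o y ∈ H := by
    intro y
    by_cases hy : y = o
    · rw [hy, Equiv.swap_self]
      exact H.one_mem
    obtain ⟨n, hn⟩ := cyc.exists_pow_eq (mt (ho' _).1 tb) (mt (ho' _).1 hy)
    have e : (c ^ n) o = o := Equiv.Perm.pow_apply_eq_self_of_apply_eq_self ((ho' o).2 rfl) n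
    have := H.mul_mem (H.mul_mem (H.pow_mem hcH n) s1) (H.inv_mem (H.pow_mem hcH n))
    rwa [← Equiv.swap_apply_apply, e, hn] at this
  rw [eq_top_iff, ← Equiv.Perm.closure_isSwap, Subgroup.closure_le]
  rintro _ ⟨y, z, hyz, rfl⟩
  by_cases hz : z = o
  · rw [hz, Equiv.swap_comm]
    exact s2 y
  have e := Equiv.swap_mul_swap_mul_swap (x := z) (y := o) (z := y) hz hyz.symm
  rw [SetLike.mem_coe, ← e, Equiv.swap_comm z o]
  exact H.mul_mem (H.mul_mem (s2 y) (s2 z)) (s2 y)

variable {L : Type} [Field L] [NumberField L]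

theorem mem_roots {m : ℤ} {x : L} : x ∈ (Mr m).rootSet L ↔ Mp (m : L) x = 0 := by
  rw [(Mr_monic m).mem_rootSet, aeval_Mr]

/-- A root of the sextic as an algebraic integer. -/
def io {m : ℤ} (α : (Mr m).rootSet L) : 𝓞 L :=
  ⟨α, Mq m, Mq_monic m, (aeval_Mq m (α : L)).trans (mem_roots.1 α.2)⟩

theorem io_smul {m : ℤ} (σ : L ≃ₐ[ℚ] L) (α : (Mr m).rootSet L) : io (σ • α) = σ • io α := rfl

theorem prod_io {m : ℤ} (hs : ((Mr m).map (algebraMap ℚ L)).Splits) (hsep : (Mr m).Separable)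
    {k : Type} [Field k] (π : 𝓞 L →+* k) :
    (Mq m).map (Int.castRingHom k) = ∏ α : (Mr m).rootSet L, (X - C (π (io α))) := by
  classical
  have e : (Mq m).map (Int.castRingHom (𝓞 L)) = ∏ α : (Mr m).rootSet L, (X - C (io α)) := by
    apply map_injective (algebraMap (𝓞 L) L) RingOfIntegers.coe_injective
    have e1 : ((Mq m).map (Int.castRingHom (𝓞 L))).map (algebraMap (𝓞 L) L) =
        (Mr m).map (algebraMap ℚ L) := by
      rw [Mr, Polynomial.map_map, Polynomial.map_map]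
      congr 1
      exact RingHom.ext_int _ _
    rw [e1, hs.eq_prod_roots_of_monic ((Mr_monic m).map _), Polynomial.map_prod]
    simp only [Polynomial.map_sub, map_X, map_C]
    have e2 := Finset.prod_subtype (p := fun x => x ∈ (Mr m).rootSet L)
      (F := inferInstance) ((Mr m).aroots L).toFinset (fun x => by rw [rootSet_def]; rfl)
      (fun x => (X - C x : L[X]))
    refine Eq.trans ?_ e2
    rw [Finset.prod, Multiset.toFinset_val, (nodup_roots hsep.map).dedup]
  have := congrArg (Polynomial.map π) e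
  rw [Polynomial.map_map, Polynomial.map_prod] at this
  simp only [Polynomial.map_sub, map_X, map_C] at this
  rw [← this]
  congr 1
  exact RingHom.ext_int _ _

theorem root_lift {m : ℤ} (hs : ((Mr m).map (algebraMap ℚ L)).Splits) (hsep : (Mr m).Separable)
    {k : Type} [Field k] (π : 𝓞 L →+* k) (β : k) :
    Mp (m : k) β = 0 ↔ ∃ α : (Mr m).rootSet L, π (io α) = β := by
  have := congrArg (eval β) (prod_io hs hsep π)
  rw [eval_map, ← algebraMap_int_eq, ← aeval_def, aeval_Mq, eval_prod] at this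
  rw [Mp, this, Finset.prod_eq_zero_iff]
  simp only [Finset.mem_univ, true_and, eval_sub, eval_X, eval_C, sub_eq_zero]
  exact exists_congr fun α => eq_comm

theorem five_dvd [IsGalois ℚ L] {m : ℤ} (hs : ((Mr m).map (algebraMap ℚ L)).Splits)
    (hm : (m : ZMod 11) = -2) : 5 ∣ Nat.card (L ≃ₐ[ℚ] L) := by
  obtain ⟨k, _, _, π, σ, hσ⟩ := frob L 11
  let : Algebra (ZMod 11) k := ZMod.algebra k 11
  have hp := prod_io hs (Mr_irr hm).separable π
  have e1 : (Mq m).map (Int.castRingHom k) = ((X - C 2) * q5).map (algebraMap (ZMod 11) k) := by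
    rw [← Mq_mod11 hm, Polynomial.map_map]
    congr 1
    exact RingHom.ext_int _ _
  have s1 : ((Mq m).map (Int.castRingHom k)).Splits := by
    rw [hp]
    exact Splits.prod fun _ _ => Splits.X_sub_C _
  have d1 : q5.map (algebraMap (ZMod 11) k) ∣ (Mq m).map (Int.castRingHom k) := by
    rw [e1, Polynomial.map_mul]
    exact dvd_mul_left _ _
  obtain ⟨β, hβ⟩ := (s1.of_dvd ((Mq_monic m).map _).ne_zero d1).exists_eval_eq_zero (by
    rw [degree_map, degree_eq_natDegree q5_monic.ne_zero, q5_natDegree]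
    norm_num)
  have h1 : Mp (m : k) β = 0 := by
    have := eval_eq_zero_of_dvd_of_eval_eq_zero d1 hβ
    rwa [eval_map, ← algebraMap_int_eq, ← aeval_def, aeval_Mq] at this
  obtain ⟨α, rfl⟩ := (root_lift hs (Mr_irr hm).separable π β).1 h1
  have h2 : ∀ (n : ℕ) (x : 𝓞 L), π (σ ^ n • x) = π x ^ 11 ^ n := by
    intro n x
    induction n with
    | zero => simp
    | succ n ih => rw [pow_succ', mul_smul, hσ, ih, ← pow_mul, ← pow_succ]
  have h3 := h2 (Nat.card (L ≃ₐ[ℚ] L)) (io α)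
  rw [pow_card_eq_one', one_smul] at h3
  have h4 := minpoly.eq_of_irreducible_of_monic q5_irr (by rwa [eval_map_algebraMap] at hβ) q5_monic
  rw [← q5_natDegree]
  apply q5_irr.natDegree_dvd_of_dvd_X_pow_card_pow_sub_X
  rw [h4, Nat.card_zmod]
  apply minpoly.dvd
  rw [map_sub, map_pow, aeval_X, ← h3, sub_self]

/-- The relation expressing equality of the modular invariants. -/
def Rel {A : Type} [CommRing A] (b c : A) : Prop :=
  (b ^ 4 - 12 * b ^ 3 + 14 * b ^ 2 + 12 * b + 1) ^ 3 * (c ^ 5 * (c ^ 2 - 11 * c - 1)) =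
    (c ^ 4 - 12 * c ^ 3 + 14 * c ^ 2 + 12 * c + 1) ^ 3 * (b ^ 5 * (b ^ 2 - 11 * b - 1))

theorem Rel.map {A B : Type} [CommRing A] [CommRing B] (f : A →+* B) {b c : A} (h : Rel b c) :
    Rel (f b) (f c) := by
  simpa [Rel, map_ofNat] using congrArg f h

theorem Rel.of_map {A B : Type} [CommRing A] [CommRing B] (f : A →+* B)
    (hf : Function.Injective f) {b c : A} (h : Rel (f b) (f c)) : Rel b c := by
  apply hf
  simpa [Rel, map_ofNat] using h

theorem int_Bb {m : ℤ} {r : L} (h : Mp (m : L) r = 0) : IsIntegral ℤ (Bb r) := by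
  obtain ⟨-, -, -, j1, j2, j3⟩ := int_W h
  rw [eq_inv_of_mul_eq_one_left (dat_W h).h3, mul_inv, mul_inv]
  exact (j1.mul j2).mul j3

theorem swap43 [IsGalois ℚ L] {m : ℤ} (hs : ((Mr m).map (algebraMap ℚ L)).Splits)
    (hm : (m : ZMod 11) = -2) (hm' : (m : ZMod 43) = 0) [DecidableEq ((Mr m).rootSet L)] :
    (∃ σ : L ≃ₐ[ℚ] L, (MulAction.toPerm σ : Equiv.Perm ((Mr m).rootSet L)).IsSwap) ∧
      ∃ α β : (Mr m).rootSet L, ¬ Rel (Bb (α : L)) (Bb (β : L)) := by
  classical
  obtain ⟨k, _, _, π, σ, hσ⟩ := frob L 43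
  have sep := (Mr_irr hm).separable
  let φ : ZMod 43 →+* k := ZMod.castHom (dvd_refl 43) k
  have hk : (m : k) = 0 := by rw [← map_intCast φ, hm', map_zero]
  have inj : Function.Injective fun α : (Mr m).rootSet L => π (io α) := by
    rw [← separable_prod_X_sub_C_iff, ← prod_io hs sep π]
    have := (Mq_sep43 hm').map (f := φ)
    rw [Polynomial.map_map] at this
    rwa [RingHom.ext_int (Int.castRingHom k) (φ.comp (Int.castRingHom (ZMod 43)))]
  have hr : ∀ n : ZMod 43, Mp (m : k) (φ n) = φ ((n ^ 2 - 1) ^ 3 + n * 2 * (2 * n ^ 2)) := by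
    intro n
    simp [Mp, hk, map_ofNat]
  constructor
  · refine ⟨σ, Equiv.Perm.card_support_eq_two.1 ?_⟩
    have e : (MulAction.toPerm σ : Equiv.Perm ((Mr m).rootSet L)).supportᶜ.image
        (fun α => π (io α)) = (Finset.univ.filter fun n : ZMod 43 =>
          (n ^ 2 - 1) ^ 3 + n * 2 * (2 * n ^ 2) = 0).image φ := by
      ext β
      simp only [Finset.mem_image, Finset.mem_compl, Equiv.Perm.notMem_support,
        MulAction.toPerm_apply, Finset.mem_filter, Finset.mem_univ, true_and]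
      constructor
      · rintro ⟨α, h1, rfl⟩
        have h2 : π (io α) ^ 43 = π (io α) := by rw [← hσ, ← io_smul, h1]
        have h3 := (Subfield.mem_bot_iff_pow_eq_self k 43).2 h2
        rw [← ZMod.fieldRange_castHom_eq_bot 43] at h3
        obtain ⟨n, hn⟩ := h3
        refine ⟨n, φ.injective ?_, hn⟩
        rw [← hr, map_zero]
        exact (root_lift hs sep π _).2 ⟨α, hn.symm⟩
      · rintro ⟨n, h1, rfl⟩
        obtain ⟨α, hα⟩ := (root_lift hs sep π (φ n)).1 (by rw [hr, h1, map_zero])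
        refine ⟨α, inj ?_, hα⟩
        change π (io (σ • α)) = π (io α)
        rw [io_smul, hσ, hα, ← map_pow, ZMod.pow_card]
    have c := congrArg Finset.card e
    rw [Finset.card_image_of_injective _ inj, Finset.card_image_of_injective _ φ.injective, card43,
      Finset.card_compl, card_rootSet_eq_natDegree sep hs, Mr_natDegree] at c
    have := Finset.card_le_univ (MulAction.toPerm σ : Equiv.Perm ((Mr m).rootSet L)).support
    omega
  · have key : ∀ n c : ZMod 43, (n ^ 2 - 1) ^ 3 + n * 2 * (2 * n ^ 2) = 0 →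
        c * (n * (n - 1) ^ 2) = (n + 1) ^ 2 → n * (n - 1) ^ 2 ≠ 0 →
        ∃ (α : (Mr m).rootSet L) (B : 𝓞 L), algebraMap (𝓞 L) L B = Bb (α : L) ∧ π B = φ c := by
      intro n c h1 h2 h3
      obtain ⟨α, hα⟩ := (root_lift hs sep π (φ n)).1 (by rw [hr, h1, map_zero])
      have h4 := mem_roots.1 α.2
      obtain ⟨a1, -, a3, -⟩ := Mp_ne h4
      let B : 𝓞 L := ⟨_, int_Bb h4⟩
      refine ⟨α, B, rfl, ?_⟩
      have h5 : B * (io α * (io α - 1) ^ 2) = (io α + 1) ^ 2 := by
        apply RingOfIntegers.coe_injective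
        simp only [map_mul, map_pow, map_sub, map_add, map_one]
        exact div_mul_cancel₀ _ (mul_ne_zero a1 (pow_ne_zero 2 a3))
      have h6 := congrArg π h5
      simp only [map_mul, map_pow, map_sub, map_add, map_one, hα] at h6
      have h7 := congrArg φ h2
      simp only [map_mul, map_pow, map_sub, map_add, map_one] at h7
      have h8 : φ n * (φ n - 1) ^ 2 ≠ 0 := by simpa using (map_ne_zero φ).2 h3
      exact mul_right_cancel₀ h8 (h6.trans h7.symm)
    obtain ⟨α, B, b1, b2⟩ := key 23 31 (by decide) (by decide) (by decide)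
    obtain ⟨β, D, d1, d2⟩ := key 36 41 (by decide) (by decide) (by decide)
    refine ⟨α, β, fun h => ?_⟩
    rw [← b1, ← d1] at h
    have h1 := (h.of_map _ RingOfIntegers.coe_injective).map π
    rw [b2, d2] at h1
    have h2 := h1.of_map _ φ.injective
    revert h2
    unfold Rel
    decide

theorem gal_surj [IsGalois ℚ L] {m : ℤ} (hs : ((Mr m).map (algebraMap ℚ L)).Splits)
    (hinj : Function.Injective (MulAction.toPermHom (L ≃ₐ[ℚ] L) ((Mr m).rootSet L)))
    (hm : (m : ZMod 11) = -2) (hm' : (m : ZMod 43) = 0) :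
    Function.Surjective (MulAction.toPermHom (L ≃ₐ[ℚ] L) ((Mr m).rootSet L)) := by
  classical
  rw [← MonoidHom.range_eq_top]
  obtain ⟨⟨σ, hσ⟩, -⟩ := swap43 hs hm hm'
  have : Fact (Nat.Prime 5) := ⟨by norm_num⟩
  obtain ⟨c, hc⟩ := exists_prime_orderOf_dvd_card' 5 (five_dvd hs hm)
  refine perm_top ((card_rootSet_eq_natDegree (Mr_irr hm).separable hs).trans (Mr_natDegree m)) _
    (fun a b => ?_) hσ ⟨σ, rfl⟩ ((orderOf_injective _ hinj c).trans hc) ⟨c, rfl⟩
  have k : ∀ a : (Mr m).rootSet L, Mr m = minpoly ℚ (a : L) := fun a =>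
    minpoly.eq_of_irreducible_of_monic (Mr_irr hm) (aeval_eq_zero_of_mem_rootSet a.2) (Mr_monic m)
  obtain ⟨t, ht⟩ := (Normal.minpoly_eq_iff_mem_orbit L).1 ((k b).symm.trans (k a))
  exact ⟨_, ⟨t, rfl⟩, Subtype.ext ht⟩

end Pool.Agent.MP_f3836a_nt.H24
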