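import Pool.Agent.MP_f3836a_nt.H24.Loc

namespace Pool.Agent.MP_f3836a_nt.H24

open Pool.Agent.MP_f3836a_nt.H23
open Complex Filter Topology Real

theorem u_ne {K F : Type} [Field K] [Field F] [Algebra K F] {w : K} {x : F} (hw : 1 + w ≠ 0)
    (hx : Transcendental K x) : 1 + (1 + algebraMap K F w) ^ 2 * x ≠ 0 := by
  intro h
  apply hx
  have a : (1 + algebraMap K F w) ≠ 0 := by
    rw [← map_one (algebraMap K F), ← map_add]
    exact (map_ne_zero _).2 hw
  have e : x = algebraMap K F (-((1 + w) ^ 2)⁻¹) := by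
    simp only [map_neg, map_inv₀, map_pow, map_add, map_one]
    field_simp
    linear_combination h
  rw [e]
  exact isAlgebraic_algebraMap _

theorem tr_dia {K F : Type} [Field K] [Field F] [Algebra K F] {b : K} {x : F} (hb : b ≠ 0)
    (hx : Transcendental K x) :
    Transcendental K ((x - algebraMap K F b) / algebraMap K F b ^ 2) := by
  intro h
  apply hx
  have a : algebraMap K F b ≠ 0 := (map_ne_zero _).2 hb
  have k : IsAlgebraic K (algebraMap K F b) := isAlgebraic_algebraMap _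
  have := (h.mul (k.pow 2)).add k
  rwa [div_mul_cancel₀ _ (pow_ne_zero 2 a), sub_add_cancel] at this

theorem loc {δ : ℝ} (hδ : 0 < δ) : ∀ᶠ ζ in 𝓝 (0 : ℂ), ∀ (K : Type) [Field K] [NumberField K]
    (F : Type) [Field F] [Algebra K F] (b w1 w2 w3 : K) (x y : F) (σ : K →+* ℂ),
    Dat b w1 w2 w3 → σ w2⁻¹ = ζ.re → σ w1 = 1 + ζ.im → Transcendental K x →
    IntermediateField.adjoin K {x, y} = ⊤ →
    y ^ 2 + (1 - algebraMap K F b) * x * y - algebraMap K F b * y =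
      x ^ 3 - algebraMap K F b * x ^ 2 →
    ∃ ρ : K2 F →ₗ[ℤ] ℝ, |ρ (El (algebraMap K F w1) x y) - 0| < δ ∧
      |ρ (El (algebraMap K F w2) x y) - 3| < δ ∧ |ρ (El (algebraMap K F w3) x y) - 3| < δ ∧
      |ρ (El (-(algebraMap K F w1)⁻¹) ((x - algebraMap K F b) / algebraMap K F b ^ 2)
        ((y - algebraMap K F b * x) / algebraMap K F b ^ 3)) - 0| < δ ∧
      |ρ (El (-(algebraMap K F w2)⁻¹) ((x - algebraMap K F b) / algebraMap K F b ^ 2)
        ((y - algebraMap K F b * x) / algebraMap K F b ^ 3)) - 2| < δ ∧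
      |ρ (El (-(algebraMap K F w3)⁻¹) ((x - algebraMap K F b) / algebraMap K F b ^ 2)
        ((y - algebraMap K F b * x) / algebraMap K F b ^ 3)) - 2| < δ := by
  obtain ⟨R, h1, -, hR⟩ := exists_radius (a := 1) (b := 2) zero_le_one one_lt_two
  have pi0 := Real.pi_pos.ne'
  have nW : Nice ww := nice_of cd_ww fun θ => by simp [ww0]
  have nM : Nice mm := nice_of cd_mm fun θ => by simp [mm0]
  have nA1 : Nice fun p => 1 + ww p :=
    nice_of (contDiff_const.add cd_ww) fun θ => by rw [ww0]; norm_num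
  have nA2 : Nice fun p => 1 + tt p := nice_of (contDiff_const.add cd_tt) fun θ => by simp [tt0]
  have nA3 : Nice fun p => tt p + mm p := nice_of (cd_tt.add cd_mm) fun θ => by simp [tt0, mm0]
  have nA5 : Nice fun p => 1 - tt p := nice_of (contDiff_const.sub cd_tt) fun θ => by simp [tt0]
  have nA6 : Nice fun p => mm p - tt p := nice_of (cd_mm.sub cd_tt) fun θ => by simp [tt0, mm0]
  have m1 := ev_gen (nice_U1 (R := R)) ((nice_pow nA1 5).mul (nice_G1 h1)) 0 2 (c := 0)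
    (by simp [U10, wind_one]) hδ
  have m2 := ev_gen (nice_U2 h1) ((nice_pow nA2 5).mul (nice_G1 h1)) 0 (-3) (c := 3)
    (by simp only [U20, wind_one_add h1]; push_cast; field_simp; ring) hδ
  have m3 := ev_gen (nice_U3 h1) ((nice_pow nA3 5).mul (nice_G1 h1)) 0 (-3) (c := 3)
    (by simp only [U30, wind_one_add h1]; push_cast; field_simp; ring) hδ
  have m4 := ev_gen ((nice_pow nW 2).mul (nice_U1 (R := R)))
    ((nice_pow (nA1.neg.div nM) 5).mul (nice_G2 h1)) 0 4 (c := 0)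
    (by simp [U10, ww0, wind_one]) hδ
  have m5 := ev_gen (nice_U2 h1) ((nice_pow nA5 5).mul (nice_G2 h1)) (-2) (-6) (c := 2)
    (by
      simp only [U20, G20 h1, tt0, sub_zero, one_pow, one_mul, wind_one_add h1, wind_sq h1]
      push_cast; field_simp; ring) hδ
  have m6 := ev_gen ((nice_pow nM 2).mul (nice_U3 h1))
    ((nice_pow (nA6.div nM) 5).mul (nice_G2 h1)) (-2) (-6) (c := 2)
    (by
      simp only [U30, G20 h1, tt0, mm0, sub_zero, neg_div_neg_eq, div_one, neg_one_sq, one_pow,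
        one_mul, wind_one_add h1, wind_sq h1]
      push_cast; field_simp; ring) hδ
  rw [eventually_nhdsWithin_iff] at m1 m2 m3 m4 m5 m6
  filter_upwards [ev_slit h1, m1, m2, m3, m4, m5, m6] with ζ hs m1 m2 m3 m4 m5 m6
  intro K _ _ F _ _ b w1 w2 w3 x y σ hd s2 s1 hx hgen hE
  obtain ⟨ev, hc, hp, e1, e2, e3, e4, ex, ey⟩ :=
    exists_ev h1 hR hs K F b w1 w2 w3 x y σ hd s2 s1 hx hgen hE
  obtain ⟨ρ, hρ⟩ := exists_rho ev hc hp
  have : CharZero F := charZero_of_injective_algebraMap (algebraMap K F).injective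
  have t0 : (ζ.re : ℂ) ≠ 0 := by simpa [← s2] using hd.cyc.ne1
  have t1 : ζ ∈ {ζ : ℂ | ζ.re ≠ 0} := by simpa using t0
  have t2 : ∀ θ : ℝ, tt (θ, ζ) ≠ 0 := fun _ => t0
  have dF := hd.map (algebraMap K F)
  have g : ∀ a : F, a ≠ 0 → Good fun θ => ev θ a := fun a ha => ⟨hc a, fun θ => by simpa using ha⟩
  have r1 : ∀ (u v : F) (m n : ℤ) (Φ Ψ : ℝ × ℂ → ℂ), u ≠ 0 → v ≠ 0 →
      (∀ θ, ev θ u = tt (θ, ζ) ^ m * Φ (θ, ζ)) → (∀ θ, ev θ v = tt (θ, ζ) ^ n * Ψ (θ, ζ)) →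
      ((2 * π * Real.log ‖(ζ.re : ℂ)‖)⁻¹ • ρ) (sy u v) = (2 * π * Real.log ‖(ζ.re : ℂ)‖)⁻¹ *
        (m * Real.log ‖(ζ.re : ℂ)‖ * wind (fun s => Ψ (s, ζ)) -
          n * Real.log ‖(ζ.re : ℂ)‖ * wind (fun s => Φ (s, ζ)) +
          reg (fun s => Φ (s, ζ)) fun s => Ψ (s, ζ)) := by
    intro u v m n Φ Ψ hu hv a1 a2
    rw [LinearMap.smul_apply, smul_eq_mul, sy_eq hu hv, hρ]
    exact congrArg _ (reg_scale (g u hu) (g v hv) t0 m n a1 a2)
  have x0 : x ≠ 0 := fun h => hx (h ▸ isAlgebraic_zero)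
  have x1 : (x - algebraMap K F b) / algebraMap K F b ^ 2 ≠ 0 :=
    fun h => tr_dia hd.b_ne hx (h ▸ isAlgebraic_zero)
  have f0 := f_ne hE x0
  have f1 := f_ne (E_dia dF.b_ne hE) x1
  have u1 := u_ne hd.add_ne hx
  have u2 := u_ne hd.cyc.add_ne hx
  have u3 := u_ne hd.cyc.cyc.add_ne hx
  have gw : ∀ θ : ℝ, ww (θ, ζ) ≠ 0 := fun θ => by simpa [← e1] using hd.ne1
  have gm : ∀ θ : ℝ, mm (θ, ζ) ≠ 0 := fun θ =>
    left_ne_zero_of_mul (b := (tt (θ, ζ))⁻¹) (by simpa [← e3] using hd.cyc.cyc.ne1)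
  have ef : ∀ θ, ev θ ((x + 1) * y - x ^ 2) = tt (θ, ζ) ^ 2 * G1 R (θ, ζ) := fun θ => by
    simp only [map_sub, map_mul, map_add, map_pow, map_one, ex, ey, G1]
    ring
  have ef' : ∀ θ, ev θ (((x - algebraMap K F b) / algebraMap K F b ^ 2 + 1) *
      ((y - algebraMap K F b * x) / algebraMap K F b ^ 3) -
      ((x - algebraMap K F b) / algebraMap K F b ^ 2) ^ 2) =
      (tt (θ, ζ) ^ 6)⁻¹ * G2 R (θ, ζ) := fun θ => by
    simp only [map_sub, map_mul, map_add, map_pow, map_div₀, map_one, ex, ey, e4, G2]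
    have a1 := t2 θ
    have a2 := mul_ne_zero (gw θ) (gm θ)
    generalize ww (θ, ζ) * mm (θ, ζ) = g at *
    field_simp
  have eu1 : ∀ θ, ev θ (1 + (1 + algebraMap K F w1) ^ 2 * x) = U1 R (θ, ζ) := fun θ => by
    simp only [map_mul, map_add, map_pow, map_one, ex, e1, U1]
    ring
  have eu2 : ∀ θ, ev θ (1 + (1 + algebraMap K F w2) ^ 2 * x) = U2 R (θ, ζ) := fun θ => by
    simp only [map_mul, map_add, map_pow, map_one, ex, e2, U2]
    have a1 := t2 θ
    field_simp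
    ring
  have eu3 : ∀ θ, ev θ (1 + (1 + algebraMap K F w3) ^ 2 * x) = U3 R (θ, ζ) := fun θ => by
    simp only [map_mul, map_add, map_pow, map_one, ex, e3, U3]
    have a1 := t2 θ
    field_simp
  refine ⟨(2 * π * Real.log ‖(ζ.re : ℂ)‖)⁻¹ • ρ, ?_, ?_, ?_, ?_, ?_, ?_⟩
  · rw [El, r1 _ _ 0 2 (U1 R) (fun p => (1 + ww p) ^ 5 * G1 R p) u1
      (mul_ne_zero (pow_ne_zero 5 dF.add_ne) f0) (fun θ => by rw [eu1]; simp) (fun θ => ?_)]
    · exact m1 t1
    · rw [map_mul, ef, map_pow, map_add, map_one, e1, zpow_ofNat]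
      ring
  · rw [El, r1 _ _ 0 (-3) (U2 R) (fun p => (1 + tt p) ^ 5 * G1 R p) u2
      (mul_ne_zero (pow_ne_zero 5 dF.cyc.add_ne) f0) (fun θ => by rw [eu2]; simp) (fun θ => ?_)]
    · exact m2 t1
    · rw [map_mul, ef, map_pow, map_add, map_one, e2, zpow_neg, zpow_ofNat]
      have a1 := t2 θ
      field_simp
      ring
  · rw [El, r1 _ _ 0 (-3) (U3 R) (fun p => (tt p + mm p) ^ 5 * G1 R p) u3
      (mul_ne_zero (pow_ne_zero 5 dF.cyc.cyc.add_ne) f0) (fun θ => by rw [eu3]; simp) (fun θ => ?_)]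
    · exact m3 t1
    · rw [map_mul, ef, map_pow, map_add, map_one, e3, zpow_neg, zpow_ofNat]
      have a1 := t2 θ
      field_simp
  · rw [El, dF.u_dia, r1 _ _ 0 4 (fun p => ww p ^ 2 * U1 R p)
      (fun p => (-(1 + ww p) / mm p) ^ 5 * G2 R p) (mul_ne_zero (pow_ne_zero 2 dF.ne1) u1)
      (mul_ne_zero (pow_ne_zero 5 dF.dia.add_ne) f1)
      (fun θ => by rw [map_mul, eu1, map_pow, e1]; simp) (fun θ => ?_)]
    · exact m4 t1
    · have a0 := (dF.map (ev θ)).rel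
      rw [e1, e4] at a0
      have a1 := t2 θ
      have a2 := gw θ
      have a3 := gm θ
      have a4 : 1 + -(ww (θ, ζ))⁻¹ = tt (θ, ζ) ^ 2 * (-(1 + ww (θ, ζ)) / mm (θ, ζ)) := by
        field_simp at a0 ⊢
        linear_combination a0
      rw [map_mul, ef', map_pow, map_add, map_one, map_neg, map_inv₀, e1, a4, zpow_ofNat]
      field_simp
  · rw [El, dF.cyc.u_dia, r1 _ _ (-2) (-6) (U2 R)
      (fun p => (1 - tt p) ^ 5 * G2 R p) (mul_ne_zero (pow_ne_zero 2 dF.cyc.ne1) u2)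
      (mul_ne_zero (pow_ne_zero 5 dF.cyc.dia.add_ne) f1)
      (fun θ => by rw [map_mul, eu2, map_pow, e2, zpow_neg, zpow_ofNat, inv_pow]) (fun θ => ?_)]
    · exact m5 t1
    · rw [map_mul, ef', map_pow, map_add, map_one, map_neg, map_inv₀, e2, zpow_neg, zpow_ofNat,
        inv_inv]
      ring
  · rw [El, dF.cyc.cyc.u_dia, r1 _ _ (-2) (-6) (fun p => mm p ^ 2 * U3 R p)
      (fun p => ((mm p - tt p) / mm p) ^ 5 * G2 R p)
      (mul_ne_zero (pow_ne_zero 2 dF.cyc.cyc.ne1) u3)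
      (mul_ne_zero (pow_ne_zero 5 dF.cyc.cyc.dia.add_ne) f1)
      (fun θ => by
        rw [map_mul, eu3, map_pow, e3, zpow_neg, zpow_ofNat, mul_pow, inv_pow]
        ring) (fun θ => ?_)]
    · exact m6 t1
    · rw [map_mul, ef', map_pow, map_add, map_one, map_neg, map_inv₀, e3, zpow_neg, zpow_ofNat]
      have a1 := t2 θ
      have a3 := gm θ
      field_simp
      ring

end Pool.Agent.MP_f3836a_nt.H24
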