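import Pool.Agent.MP_f3836a_nt.H24.Fam

namespace Pool.Agent.MP_f3836a_nt.H24

open Polynomial

instance fact11 : Fact (Nat.Prime 11) := ⟨by norm_num⟩

instance fact43 : Fact (Nat.Prime 43) := ⟨by norm_num⟩

/-- The quintic factor modulo eleven. -/
noncomputable def q5 : (ZMod 11)[X] := X ^ 5 + 2 * X ^ 4 + X ^ 3 + 9 * X ^ 2 + 10 * X + 6

theorem q5_monic : q5.Monic := by
  unfold q5
  monicity!

theorem q5_natDegree : q5.natDegree = 5 := by
  unfold q5
  compute_degree!

theorem q5_quad : ∀ a b : ZMod 11,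
    ¬ (10 - b * (1 - b - a * (2 - a)) - a * (9 - b * (2 - a) - a * (1 - b - a * (2 - a))) = 0 ∧
      6 - b * (9 - b * (2 - a) - a * (1 - b - a * (2 - a))) = 0) := by
  decide +kernel

theorem q5_lin : ∀ a : ZMod 11, a ^ 5 + 2 * a ^ 4 + a ^ 3 + 9 * a ^ 2 + 10 * a + 6 ≠ 0 := by
  decide +kernel

theorem q5_irr : Irreducible q5 := by
  rw [q5_monic.irreducible_iff_natDegree']
  refine ⟨fun h => by simpa [h] using q5_natDegree, fun f g _ hg hfg hd => ?_⟩
  rw [q5_natDegree, Finset.mem_Ioc] at hd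
  have h12 : g.natDegree = 1 ∨ g.natDegree = 2 := by omega
  rcases h12 with h | h
  · apply q5_lin (-g.coeff 0)
    have := congrArg (eval (-g.coeff 0)) hfg
    rw [eval_mul, hg.eq_X_add_C h] at this
    simpa [q5] using this.symm
  · have e := hg.as_sum
    rw [h] at e
    simp only [Finset.sum_range_succ, Finset.range_zero, Finset.sum_empty, zero_add, pow_zero,
      mul_one, pow_one] at e
    generalize g.coeff 0 = b at e
    generalize g.coeff 1 = a at e
    set c2 : ZMod 11 := 2 - a with h2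
    set c1 : ZMod 11 := 1 - b - a * c2 with h1
    set c0 : ZMod 11 := 9 - b * c2 - a * c1 with h0
    have k : q5 = g * (X ^ 3 + C c2 * X ^ 2 + C c1 * X + C c0) +
        (C (10 - b * c1 - a * c0) * X + C (6 - b * c0)) := by
      rw [e, q5, h0, h1, h2]
      simp only [map_sub, map_mul, map_ofNat, map_one]
      ring
    have d : g ∣ C (10 - b * c1 - a * c0) * X + C (6 - b * c0) :=
      (dvd_add_right (dvd_mul_right _ _)).1 (k ▸ hfg ▸ dvd_mul_left g f)
    have z := eq_zero_of_dvd_of_natDegree_lt d (by rw [h]; exact natDegree_linear_le.trans_lt one_lt_two)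
    have z1 := congrArg (fun p => coeff p 1) z
    have z0 := congrArg (fun p => coeff p 0) z
    simp only [coeff_add, coeff_C_mul, coeff_X_one, coeff_C, coeff_X_zero, mul_one, mul_zero,
      coeff_zero, if_true, zero_add, one_ne_zero, if_false, add_zero] at z0 z1
    exact q5_quad a b ⟨z1, z0⟩

theorem Mq_mod11 {m : ℤ} (hm : (m : ZMod 11) = -2) :
    (Mq m).map (Int.castRingHom (ZMod 11)) = (X - C 2) * q5 := by
  have h11 : (11 : (ZMod 11)[X]) = 0 := by
    have : (11 : (ZMod 11)[X]) = C 11 := rfl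
    rw [this, show (11 : ZMod 11) = 0 from rfl, map_zero]
  simp only [Mq, Polynomial.map_add, Polynomial.map_sub, Polynomial.map_mul, Polynomial.map_pow,
    map_X, map_C, Polynomial.map_one, Polynomial.map_ofNat]
  simp only [Int.coe_castRingHom, hm, q5, map_neg, map_ofNat]
  linear_combination (1 + 2 * X + X ^ 2 - X ^ 3) * h11

theorem Mq_irr {m : ℤ} (hm : (m : ZMod 11) = -2) : Irreducible (Mq m) := by
  rw [(Mq_monic m).irreducible_iff_natDegree']
  refine ⟨fun h => by simpa [h] using Mq_natDegree m, fun f g _ hg hfg hd => ?_⟩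
  rw [Mq_natDegree, Finset.mem_Ioc] at hd
  have d1 : g.map (Int.castRingHom (ZMod 11)) ∣ (X - C 2) * q5 := by
    rw [← Mq_mod11 hm, ← hfg, Polynomial.map_mul]
    exact dvd_mul_left _ _
  have e1 : (g.map (Int.castRingHom (ZMod 11))).natDegree = g.natDegree := hg.natDegree_map _
  have cop : IsCoprime (g.map (Int.castRingHom (ZMod 11))) q5 := by
    refine ((q5_irr.coprime_iff_not_dvd).2 fun h => ?_).symm
    have := natDegree_le_of_dvd h (hg.map _).ne_zero
    rw [q5_natDegree, e1] at this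
    omega
  have d2 := natDegree_le_of_dvd (cop.dvd_of_dvd_mul_right d1) (X_sub_C_ne_zero 2)
  rw [natDegree_X_sub_C, e1] at d2
  have h1 : g.natDegree = 1 := by omega
  have hg1 := hg.eq_X_add_C h1
  generalize g.coeff 0 = a at hg1
  have h2 := congrArg (aeval (-(a : ℚ))) hfg
  rw [map_mul, hg1, aeval_Mq, map_add, aeval_X, aeval_C, eq_intCast, neg_add_cancel,
    mul_zero] at h2
  have h3 : Mp (m : ℚ) (-(a : ℚ)) = 0 := h2.symm
  obtain ⟨-, a2, a3, -⟩ := Mp_ne h3
  have h4 : a * (a ^ 5 - (m ^ 2 + 2 * m) * a ^ 4 - 3 * a ^ 3 - (4 - 2 * m ^ 2) * a ^ 2 + 3 * a -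
      (m ^ 2 - 2 * m)) = 1 := by
    rw [Mp] at h3
    have : (a : ℚ) * (a ^ 5 - (m ^ 2 + 2 * m) * a ^ 4 - 3 * a ^ 3 - (4 - 2 * m ^ 2) * a ^ 2 + 3 * a -
        (m ^ 2 - 2 * m)) = 1 := by linear_combination h3
    exact_mod_cast this
  rcases Int.eq_one_or_neg_one_of_mul_eq_one h4 with rfl | rfl
  · exact a2 (by norm_num)
  · exact a3 (by norm_num)

/-- The sextic as a rational polynomial. -/
noncomputable def Mr (m : ℤ) : ℚ[X] := (Mq m).map (algebraMap ℤ ℚ)

theorem Mr_monic (m : ℤ) : (Mr m).Monic := (Mq_monic m).map _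

theorem Mr_natDegree (m : ℤ) : (Mr m).natDegree = 6 :=
  ((Mq_monic m).natDegree_map _).trans (Mq_natDegree m)

theorem Mr_irr {m : ℤ} (hm : (m : ZMod 11) = -2) : Irreducible (Mr m) :=
  ((Mq_monic m).irreducible_iff_irreducible_map_fraction_map).1 (Mq_irr hm)

theorem aeval_Mr {K : Type} [Field K] [CharZero K] (m : ℤ) (r : K) :
    aeval r (Mr m) = Mp (m : K) r := by
  rw [Mr, aeval_map_algebraMap, aeval_Mq, Mp]

theorem Mq_sep43 {m : ℤ} (hm : (m : ZMod 43) = 0) :
    ((Mq m).map (Int.castRingHom (ZMod 43))).Separable := by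
  have h43 : (43 : (ZMod 43)[X]) = 0 := by
    have : (43 : (ZMod 43)[X]) = C 43 := rfl
    rw [this, show (43 : ZMod 43) = 0 from rfl, map_zero]
  have e : (Mq m).map (Int.castRingHom (ZMod 43)) =
      X ^ 6 - 3 * X ^ 4 + 4 * X ^ 3 + 3 * X ^ 2 - 1 := by
    simp only [Mq, Polynomial.map_add, Polynomial.map_sub, Polynomial.map_mul, Polynomial.map_pow,
      map_X, map_C, Polynomial.map_one, Polynomial.map_ofNat]
    simp only [Int.coe_castRingHom, hm, map_zero]
    ring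
  have d : derivative (X ^ 6 - 3 * X ^ 4 + 4 * X ^ 3 + 3 * X ^ 2 - 1 : (ZMod 43)[X]) =
      6 * X ^ 5 - 12 * X ^ 3 + 12 * X ^ 2 + 6 * X := by
    simp only [derivative_sub, derivative_add, derivative_mul, derivative_X_pow, derivative_ofNat,
      derivative_one, Nat.cast_ofNat, map_ofNat]
    ring
  rw [e]
  refine ⟨42 + 35 * X + 41 * X ^ 2 + 34 * X ^ 3 + 15 * X ^ 4,
    13 + 10 * X + 2 * X ^ 2 + 10 * X ^ 3 + 23 * X ^ 4 + 19 * X ^ 5, ?_⟩
  rw [d]
  linear_combination (-1 + X + 7 * X ^ 2 + 5 * X ^ 3 + 2 * X ^ 4 + 11 * X ^ 5 + 10 * X ^ 6 - X ^ 7 -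
    4 * X ^ 8 + 4 * X ^ 9 + 3 * X ^ 10) * h43

theorem card43 : (Finset.univ.filter fun n : ZMod 43 =>
    (n ^ 2 - 1) ^ 3 + n * 2 * (2 * n ^ 2) = 0).card = 4 := by
  decide +kernel

end Pool.Agent.MP_f3836a_nt.H24
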