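import Pool.Agent.MP_f3836a_nt.H24.Nice

namespace Pool.Agent.MP_f3836a_nt.H24

open Pool.Agent.MP_f3836a_nt.H23
open Complex Filter Topology Real

/-- A point of the modular curve of level `(2, 10)`. -/
structure Dat {K : Type} [Field K] (b w1 w2 w3 : K) : Prop where
  h1 : w1 + w2 + w3 = -1
  h2 : w1 * w2 + w1 * w3 + w2 * w3 = w1 * w2 * w3
  h3 : b * (w1 * w2 * w3) = 1

section dat

variable {K : Type} [Field K] {b w1 w2 w3 : K}

theorem Dat.cyc (h : Dat b w1 w2 w3) : Dat b w2 w3 w1 :=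
  ⟨by linear_combination h.h1, by linear_combination h.h2, by linear_combination h.h3⟩

theorem Dat.b_ne (h : Dat b w1 w2 w3) : b ≠ 0 := left_ne_zero_of_mul_eq_one h.h3

theorem Dat.ne1 (h : Dat b w1 w2 w3) : w1 ≠ 0 := by
  rintro rfl
  simpa using h.h3

theorem Dat.rel (h : Dat b w1 w2 w3) : b * (1 + w1) * w1 ^ 2 = 1 - w1 := by
  linear_combination (b * w1 ^ 2) * h.h1 - (b * w1) * h.h2 + (1 - w1) * h.h3

theorem Dat.add_ne [CharZero K] (h : Dat b w1 w2 w3) : 1 + w1 ≠ 0 := by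
  intro c
  have := h.rel
  rw [c] at this
  have e : (2 : K) = 0 := by linear_combination c - this
  exact two_ne_zero e

theorem Dat.map {L : Type} [Field L] (h : Dat b w1 w2 w3) (f : K →+* L) :
    Dat (f b) (f w1) (f w2) (f w3) :=
  ⟨by simpa using congrArg f h.h1, by simpa using congrArg f h.h2, by simpa using congrArg f h.h3⟩

theorem Dat.dia (h : Dat b w1 w2 w3) : Dat (-b⁻¹) (-w1⁻¹) (-w2⁻¹) (-w3⁻¹) := by
  have a1 := h.ne1
  have a2 := h.cyc.ne1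
  have a3 := h.cyc.cyc.ne1
  have a4 := h.b_ne
  refine ⟨?_, ?_, ?_⟩
  · field_simp
    linear_combination -h.h2
  · field_simp
    linear_combination h.h1
  · field_simp
    linear_combination -h.h3

theorem Dat.cubic {w1 w2 w3 b : K} (h : Dat b w1 w2 w3) (x : K) :
    b ^ 2 * ((1 + (1 + w1) ^ 2 * x) * (1 + (1 + w2) ^ 2 * x) * (1 + (1 + w3) ^ 2 * x)) =
      4 * x ^ 3 + ((1 - b) ^ 2 - 4 * b) * x ^ 2 - 2 * b * (1 - b) * x + b ^ 2 := by
  have A1 : (1 + w1) + (1 + w2) + (1 + w3) = 2 := by linear_combination h.h1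
  have A2 : b * ((1 + w1) * (1 + w2) + (1 + w1) * (1 + w3) + (1 + w2) * (1 + w3)) = b + 1 := by
    linear_combination (2 * b) * h.h1 + b * h.h2 + h.h3
  have A3 : b * ((1 + w1) * (1 + w2) * (1 + w3)) = 2 := by
    linear_combination b * h.h1 + b * h.h2 + 2 * h.h3
  generalize 1 + w1 = a1 at *
  generalize 1 + w2 = a2 at *
  generalize 1 + w3 = a3 at *
  have e : b ^ 2 * ((1 + a1 ^ 2 * x) * (1 + a2 ^ 2 * x) * (1 + a3 ^ 2 * x)) =
      b ^ 2 + (b ^ 2 * (a1 + a2 + a3) ^ 2 - 2 * b * (b * (a1 * a2 + a1 * a3 + a2 * a3))) * x +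
        ((b * (a1 * a2 + a1 * a3 + a2 * a3)) ^ 2 -
          2 * b * (a1 + a2 + a3) * (b * (a1 * a2 * a3))) * x ^ 2 +
        (b * (a1 * a2 * a3)) ^ 2 * x ^ 3 := by ring
  rw [e, A1, A2, A3]
  ring

theorem Dat.u_dia (h : Dat b w1 w2 w3) (x : K) :
    1 + (1 + -w1⁻¹) ^ 2 * ((x - b) / b ^ 2) = w1 ^ 2 * (1 + (1 + w1) ^ 2 * x) := by
  have a1 := h.ne1
  have a4 := h.b_ne
  have e : 1 + -w1⁻¹ = -(b * (1 + w1) * w1) := by
    field_simp
    linear_combination h.rel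
  rw [e]
  field_simp
  linear_combination (-(1 + w1)) * h.rel

theorem E_dia {x y : K} (hb : b ≠ 0) (hE : y ^ 2 + (1 - b) * x * y - b * y = x ^ 3 - b * x ^ 2) :
    ((y - b * x) / b ^ 3) ^ 2 + (1 - -b⁻¹) * ((x - b) / b ^ 2) * ((y - b * x) / b ^ 3) -
      -b⁻¹ * ((y - b * x) / b ^ 3) = ((x - b) / b ^ 2) ^ 3 - -b⁻¹ * ((x - b) / b ^ 2) ^ 2 := by
  field_simp
  linear_combination hE

end dat

variable {R : ℝ}

open Polynomial in
theorem exists_ev (h1 : 1 < R) (hR : ∀ z : ℂ, ‖z‖ = R → Transcendental ℚ z) {ζ : ℂ}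
    (hs : ∀ θ : ℝ, ps R (θ, ζ) ∈ slitPlane) (K : Type) [Field K] [NumberField K] (F : Type)
    [Field F] [Algebra K F] (b w1 w2 w3 : K) (x y : F) (σ : K →+* ℂ) (hd : Dat b w1 w2 w3)
    (s2 : σ w2⁻¹ = ζ.re) (s1 : σ w1 = 1 + ζ.im) (hx : Transcendental K x)
    (hgen : IntermediateField.adjoin K {x, y} = ⊤)
    (hE : y ^ 2 + (1 - algebraMap K F b) * x * y - algebraMap K F b * y =
      x ^ 3 - algebraMap K F b * x ^ 2) :
    ∃ ev : ℝ → F →+* ℂ, (∀ f, ContDiff ℝ 1 fun θ => ev θ f) ∧ (∀ f, ev (2 * π) f = ev 0 f) ∧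
      (∀ θ, ev θ (algebraMap K F w1) = ww (θ, ζ)) ∧
      (∀ θ, ev θ (algebraMap K F w2) = (tt (θ, ζ))⁻¹) ∧
      (∀ θ, ev θ (algebraMap K F w3) = mm (θ, ζ) * (tt (θ, ζ))⁻¹) ∧
      (∀ θ, ev θ (algebraMap K F b) = tt (θ, ζ) ^ 2 * (ww (θ, ζ) * mm (θ, ζ))⁻¹) ∧
      (∀ θ, ev θ x = tt (θ, ζ) ^ 2 * fX R (θ, ζ)) ∧
      ∀ θ, ev θ y = tt (θ, ζ) ^ 2 * et R (θ, ζ) := by
  have h0 : 0 < R := zero_lt_one.trans h1
  let : Algebra K ℂ := σ.toAlgebra
  have hσ : ∀ k, algebraMap K ℂ k = σ k := fun _ => rfl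
  have : IsScalarTower ℚ K ℂ := IsScalarTower.of_algebraMap_eq fun q => by simp
  have : CharZero F := charZero_of_injective_algebraMap (algebraMap K F).injective
  have n1 := hd.add_ne
  have n2 := hd.cyc.add_ne
  have n3 := hd.cyc.cyc.add_ne
  have t0 : ∀ θ : ℝ, tt (θ, ζ) = σ w2⁻¹ := fun θ => s2.symm
  have t1 : ∀ θ : ℝ, tt (θ, ζ) ≠ 0 := fun θ => by simpa [t0] using hd.cyc.ne1
  have v1 : ∀ θ : ℝ, σ w1 = ww (θ, ζ) := fun θ => s1
  have v2 : ∀ θ : ℝ, σ w2 = (tt (θ, ζ))⁻¹ := fun θ => by simp [t0]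
  have v3 : ∀ θ : ℝ, σ w3 = mm (θ, ζ) * (tt (θ, ζ))⁻¹ := fun θ => by
    have a := (hd.map σ).h1
    have := t1 θ
    rw [v1 θ, v2 θ] at a
    rw [mm, eq_sub_of_add_eq' a]
    field_simp
    ring
  have v4 : ∀ θ : ℝ, σ b = tt (θ, ζ) ^ 2 * (ww (θ, ζ) * mm (θ, ζ))⁻¹ := fun θ => by
    have a := (hd.map σ).h3
    have := t1 θ
    rw [v1 θ, v2 θ, v3 θ] at a
    rw [eq_inv_of_mul_eq_one_left a]
    field_simp
  have x0 : x ≠ 0 := fun h => hx (h ▸ isAlgebraic_zero)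
  have b0 : algebraMap K F b ≠ 0 := by simpa using hd.b_ne
  set B := algebraMap K F b with hB
  set w : F := -(2 * y + (1 - B) * x - B) / (B * x) with hw
  have hy : y = (-(B * x * w) - (1 - B) * x + B) / 2 := by
    rw [hw]
    field_simp
    ring
  have hgen' : IntermediateField.adjoin K {x, w} = ⊤ := by
    rw [eq_top_iff, ← hgen, IntermediateField.adjoin_le_iff]
    have m1 : x ∈ IntermediateField.adjoin K {x, w} := IntermediateField.subset_adjoin _ _ (by simp)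
    have m2 : w ∈ IntermediateField.adjoin K {x, w} := IntermediateField.subset_adjoin _ _ (by simp)
    have m3 : B ∈ IntermediateField.adjoin K {x, w} := IntermediateField.algebraMap_mem _ _
    rintro s (rfl | rfl)
    · exact m1
    · rw [hy]
      exact div_mem (add_mem (sub_mem (neg_mem (mul_mem (mul_mem m3 m1) m2))
        (mul_mem (sub_mem (one_mem _) m3) m1)) m3) (ofNat_mem _ 2)
  have hp : ((1 + C ((1 + w1) ^ 2) * X) * (1 + C ((1 + w2) ^ 2) * X) *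
      (1 + C ((1 + w3) ^ 2) * X) : K[X]).natDegree = 3 := by
    compute_degree!
  have hq : (X ^ 2 : K[X]).natDegree = 2 := by simp
  have key : ∀ θ : ℝ, ∃ e : F →ₐ[K] ℂ, e x = tt (θ, ζ) ^ 2 * fX R (θ, ζ) ∧
      e w = Yf R (θ, ζ) * (tt (θ, ζ) ^ 2 * fX R (θ, ζ))⁻¹ := by
    intro θ
    have z0 := fX_ne h0 (θ, ζ)
    have := t1 θ
    refine exists_eval _ _ hp hq x w hx hgen' ?_ _ _ ?_ ?_
    · simp only [map_mul, map_add, map_pow, aeval_X, aeval_C, map_one]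
      apply mul_left_cancel₀ (pow_ne_zero 2 b0)
      rw [(hd.map (algebraMap K F)).cubic x, hw]
      field_simp
      linear_combination 4 * hE
    · intro ha
      apply (hR _ (norm_fX h0 (θ, ζ))).extendScalars K
      have a2 : IsAlgebraic K (algebraMap K ℂ (w2 ^ 2)) := isAlgebraic_algebraMap _
      have a3 := a2.mul ha
      rw [map_pow, hσ, v2 θ, ← mul_assoc, ← mul_pow, inv_mul_cancel₀ this, one_pow, one_mul] at a3
      exact a3
    · simp only [map_mul, map_add, map_pow, aeval_X, aeval_C, map_one, hσ, v1 θ, v2 θ, v3 θ]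
      rw [mul_pow, Yf_sq h1 (hs θ), U1, U2, U3]
      field_simp
      ring
  choose ev e1 e2 using key
  have c0 : ContDiff ℝ 1 fun θ : ℝ => (θ, ζ) := contDiff_id.prodMk contDiff_const
  have c1 : ContDiff ℝ 1 fun θ : ℝ => tt (θ, ζ) ^ 2 * fX R (θ, ζ) :=
    ((cd_tt.pow 2).mul contDiff_fX).comp c0
  have p1 : fX R (2 * π, ζ) = fX R (0, ζ) := by simpa [fX] using periodic_circleMap 0 R 0
  refine ⟨fun θ => (ev θ).toRingHom, contDiff_eval x w hgen' ev ?_ ?_,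
    eval_ext x w hgen' _ _ ?_ ?_, fun θ => ((ev θ).commutes w1).trans (v1 θ),
    fun θ => ((ev θ).commutes w2).trans (v2 θ), fun θ => ((ev θ).commutes w3).trans (v3 θ),
    fun θ => ((ev θ).commutes b).trans (v4 θ), e1, fun θ => ?_⟩
  · simp only [e1]
    exact c1
  · simp only [e2]
    refine ContDiff.mul ?_ (c1.inv fun θ => mul_ne_zero (pow_ne_zero 2 (t1 θ)) (fX_ne h0 _))
    rw [contDiff_iff_contDiffAt]
    intro θ
    exact (cd_Yf h1 (hs θ)).comp (f := fun θ : ℝ => (θ, ζ)) θ c0.contDiffAt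
  · rw [e1, e1, p1, t0, t0]
  · rw [e2, e2, p1, t0, t0, Yf_per]
  · change ev θ y = _
    have z0 := fX_ne h0 (θ, ζ)
    have := t1 θ
    have e3 : ev θ B = tt (θ, ζ) ^ 2 * (ww (θ, ζ) * mm (θ, ζ))⁻¹ := ((ev θ).commutes b).trans (v4 θ)
    rw [hy]
    simp only [map_div₀, map_add, map_sub, map_neg, map_mul, map_one, map_ofNat, e1, e2, e3, et]
    generalize (ww (θ, ζ) * mm (θ, ζ))⁻¹ = g
    field_simp

end Pool.Agent.MP_f3836a_nt.H24
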