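import Pool.Agent.MP_f3836a_nt.H24.Sym

namespace Pool.Agent.MP_f3836a_nt.H24

open Pool.Agent.MP_f3836a_nt.H23
open Complex Filter Topology Real

theorem reg_scale {φ ψ φ' ψ' : ℝ → ℂ} (g : Good φ') (g' : Good ψ') {t : ℂ} (ht : t ≠ 0) (m n : ℤ)
    (hφ : ∀ θ, φ' θ = t ^ m * φ θ) (hψ : ∀ θ, ψ' θ = t ^ n * ψ θ) :
    reg φ' ψ' = m * Real.log ‖t‖ * wind ψ - n * Real.log ‖t‖ * wind φ + reg φ ψ := by
  have k : ∀ {χ χ' : ℝ → ℂ} (j : ℤ), Good χ' → (∀ θ, χ' θ = t ^ j * χ θ) → Good χ := by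
    intro χ χ' j g h
    have e : χ = fun θ => (t ^ j)⁻¹ * χ' θ := by
      funext θ
      rw [h, inv_mul_cancel_left₀ (zpow_ne_zero j ht)]
    rw [e]
    exact (good_const (inv_ne_zero (zpow_ne_zero j ht))).mul g
  have a := k m g hφ
  have b := k n g' hψ
  have c := good_const (zpow_ne_zero m ht)
  have d := good_const (zpow_ne_zero n ht)
  have w0 : wind (fun _ => t ^ n) = 0 := by simp [wind, dl]
  rw [funext hφ, funext hψ, reg_mul_left c a (d.mul b), reg_const_left, wind_mul d b, w0,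
    reg_mul_right a d b, reg_swap φ (fun _ => t ^ n), reg_const_left, norm_zpow, norm_zpow,
    Real.log_zpow, Real.log_zpow]
  ring

theorem log_re : Tendsto (fun ζ : ℂ => 2 * π * Real.log ‖(ζ.re : ℂ)‖)
    (𝓝[{ζ : ℂ | ζ.re ≠ 0}] 0) atBot := by
  refine log_tendsto.comp (f := fun ζ : ℂ => (ζ.re : ℂ)) (tendsto_nhdsWithin_iff.2 ⟨?_, ?_⟩)
  · exact ((show Continuous fun ζ : ℂ => (ζ.re : ℂ) by fun_prop).tendsto' 0 0 (by simp)).mono_left
      nhdsWithin_le_nhds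
  · filter_upwards [self_mem_nhdsWithin] with ζ hζ
    simpa using hζ

theorem ev_gen {Φ Ψ : ℝ × ℂ → ℂ} (h : Nice Φ) (h' : Nice Ψ) (m n : ℤ) {c : ℝ}
    (hc : (m * wind (fun s => Ψ (s, 0)) - n * wind (fun s => Φ (s, 0))) / (2 * π) = c)
    {δ : ℝ} (hδ : 0 < δ) :
    ∀ᶠ ζ in 𝓝[{ζ : ℂ | ζ.re ≠ 0}] (0 : ℂ), |(2 * π * Real.log ‖(ζ.re : ℂ)‖)⁻¹ *
      (m * Real.log ‖(ζ.re : ℂ)‖ * wind (fun s => Ψ (s, ζ)) -
        n * Real.log ‖(ζ.re : ℂ)‖ * wind (fun s => Φ (s, ζ)) +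
        reg (fun s => Φ (s, ζ)) fun s => Ψ (s, ζ)) - c| < δ := by
  have a := ((((tendsto_wind h').const_mul (m : ℝ)).sub ((tendsto_wind h).const_mul (n : ℝ))).div_const
    (2 * π)).mono_left (nhdsWithin_le_nhds (s := {ζ : ℂ | ζ.re ≠ 0}))
  have b := ((tendsto_reg h h').mono_left
    (nhdsWithin_le_nhds (s := {ζ : ℂ | ζ.re ≠ 0}))).div_atBot log_re
  have d := a.add b
  rw [hc, add_zero] at d
  filter_upwards [d.eventually (Metric.ball_mem_nhds _ hδ),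
    log_re.eventually (eventually_lt_atBot 0)] with ζ h1 h3
  have l0 : Real.log ‖(ζ.re : ℂ)‖ ≠ 0 := by
    intro c
    rw [c, mul_zero] at h3
    exact lt_irrefl _ h3
  rw [Real.dist_eq] at h1
  have := Real.pi_pos.ne'
  refine lt_of_eq_of_lt ?_ h1
  congr 2
  field_simp

/-- The small parameter `1 / w₂`. -/
noncomputable def tt (p : ℝ × ℂ) : ℂ := p.2.re

/-- The parameter `w₁`. -/
noncomputable def ww (p : ℝ × ℂ) : ℂ := 1 + p.2.im

/-- The ratio `w₃ / w₂`. -/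
noncomputable def mm (p : ℝ × ℂ) : ℂ := -1 - tt p * (1 + ww p)

/-- First factor of the cubic along the loop. -/
noncomputable def U1 (R : ℝ) (p : ℝ × ℂ) : ℂ := 1 + (1 + ww p) ^ 2 * tt p ^ 2 * fX R p

/-- Second factor of the cubic along the loop. -/
noncomputable def U2 (R : ℝ) (p : ℝ × ℂ) : ℂ := 1 + (1 + tt p) ^ 2 * fX R p

/-- Third factor of the cubic along the loop. -/
noncomputable def U3 (R : ℝ) (p : ℝ × ℂ) : ℂ := 1 + (tt p + mm p) ^ 2 * fX R p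

/-- The normalised cubic along the loop. -/
noncomputable def ps (R : ℝ) (p : ℝ × ℂ) : ℂ := U1 R p * U2 R p * U3 R p * ((1 + fX R p) ^ 2)⁻¹

/-- The square root of the cubic along the loop. -/
noncomputable def Yf (R : ℝ) (p : ℝ × ℂ) : ℂ :=
  -(1 + fX R p) * Complex.exp (Complex.log (ps R p) / 2)

/-- The rescaled second coordinate along the loop. -/
noncomputable def et (R : ℝ) (p : ℝ × ℂ) : ℂ :=
  (-(ww p * mm p)⁻¹ * Yf R p - (1 - tt p ^ 2 * (ww p * mm p)⁻¹) * fX R p + (ww p * mm p)⁻¹) / 2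

/-- The rescaled function with divisor supported on the first point of order five. -/
noncomputable def G1 (R : ℝ) (p : ℝ × ℂ) : ℂ :=
  (tt p ^ 2 * fX R p + 1) * et R p - tt p ^ 2 * fX R p ^ 2

/-- The rescaled function with divisor supported on the second point of order five. -/
noncomputable def G2 (R : ℝ) (p : ℝ × ℂ) : ℂ :=
  ((fX R p - (ww p * mm p)⁻¹) * (ww p * mm p) ^ 2 + tt p ^ 2) *
      (et R p - tt p ^ 2 * (ww p * mm p)⁻¹ * fX R p) * (ww p * mm p) ^ 3 -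
    tt p ^ 2 * (fX R p - (ww p * mm p)⁻¹) ^ 2 * (ww p * mm p) ^ 4

variable {R : ℝ}

theorem cd_tt : ContDiff ℝ 1 tt :=
  (Complex.ofRealCLM.contDiff.comp Complex.reCLM.contDiff).comp contDiff_snd

theorem cd_ww : ContDiff ℝ 1 ww :=
  contDiff_const.add ((Complex.ofRealCLM.contDiff.comp Complex.imCLM.contDiff).comp contDiff_snd)

theorem cd_mm : ContDiff ℝ 1 mm := contDiff_const.sub (cd_tt.mul (contDiff_const.add cd_ww))

theorem cd_U1 : ContDiff ℝ 1 (U1 R) :=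
  contDiff_const.add ((((contDiff_const.add cd_ww).pow 2).mul (cd_tt.pow 2)).mul contDiff_fX)

theorem cd_U2 : ContDiff ℝ 1 (U2 R) :=
  contDiff_const.add (((contDiff_const.add cd_tt).pow 2).mul contDiff_fX)

theorem cd_U3 : ContDiff ℝ 1 (U3 R) :=
  contDiff_const.add (((cd_tt.add cd_mm).pow 2).mul contDiff_fX)

theorem one_add_ne (h : 1 < R) (p : ℝ × ℂ) : 1 + fX R p ≠ 0 := by
  rw [add_comm]
  exact fX_add (zero_lt_one.trans h) h.ne' p

theorem cd_ps (h : 1 < R) : ContDiff ℝ 1 (ps R) :=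
  ((cd_U1.mul cd_U2).mul cd_U3).mul
    (((contDiff_const.add contDiff_fX).pow 2).inv fun p => pow_ne_zero 2 (one_add_ne h p))

theorem cd_Yf (h : 1 < R) {p : ℝ × ℂ} (hs : ps R p ∈ slitPlane) : ContDiffAt ℝ 1 (Yf R) p := by
  have a : ContDiffAt ℝ 1 (fun p : ℝ × ℂ => Complex.log (ps R p)) p :=
    ContDiffAt.comp (g := Complex.log) (f := ps R) p
      ((Complex.contDiffAt_log hs).restrict_scalars ℝ) (cd_ps h).contDiffAt
  have b : ContDiffAt ℝ 1 (fun p : ℝ × ℂ => Complex.log (ps R p) / 2) p := a.div_const _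
  exact (contDiff_const.add contDiff_fX).neg.contDiffAt.mul
    ((Complex.contDiff_exp (𝕜 := ℝ)).contDiffAt.comp p b)

theorem tt0 (θ : ℝ) : tt (θ, 0) = 0 := by simp [tt]

theorem ww0 (θ : ℝ) : ww (θ, 0) = 1 := by simp [ww]

theorem mm0 (θ : ℝ) : mm (θ, 0) = -1 := by simp [mm, tt0]

theorem U10 (θ : ℝ) : U1 R (θ, 0) = 1 := by simp [U1, tt0]

theorem U20 (θ : ℝ) : U2 R (θ, 0) = 1 + fX R (θ, 0) := by simp [U2, tt0]

theorem U30 (θ : ℝ) : U3 R (θ, 0) = 1 + fX R (θ, 0) := by simp [U3, tt0, mm0]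

theorem ps0 (h : 1 < R) (θ : ℝ) : ps R (θ, 0) = 1 := by
  have := one_add_ne h (θ, 0)
  rw [ps, U10, U20, U30]
  field_simp

theorem Yf0 (h : 1 < R) (θ : ℝ) : Yf R (θ, 0) = -(1 + fX R (θ, 0)) := by simp [Yf, ps0 h]

theorem et0 (h : 1 < R) (θ : ℝ) : et R (θ, 0) = -(1 + fX R (θ, 0)) := by
  rw [et, Yf0 h, tt0, ww0, mm0]
  ring

theorem G10 (h : 1 < R) (θ : ℝ) : G1 R (θ, 0) = -(1 + fX R (θ, 0)) := by
  rw [G1, et0 h, tt0]
  ring

theorem G20 (h : 1 < R) (θ : ℝ) : G2 R (θ, 0) = (1 + fX R (θ, 0)) * (1 + fX R (θ, 0)) := by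
  rw [G2, et0 h, tt0, ww0, mm0]
  ring

theorem cd_gi (θ : ℝ) : ContDiffAt ℝ 1 (fun p => (ww p * mm p)⁻¹) (θ, 0) :=
  (cd_ww.mul cd_mm).contDiffAt.inv (by simp [ww0, mm0])

theorem cd_et (h : 1 < R) (θ : ℝ) : ContDiffAt ℝ 1 (et R) (θ, 0) := by
  have a := cd_Yf h (p := (θ, 0)) (by simp [ps0 h])
  have b := cd_gi θ
  exact (((b.neg.mul a).sub ((contDiffAt_const.sub ((cd_tt.pow 2).contDiffAt.mul b)).mul
    contDiff_fX.contDiffAt)).add b).div_const _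

theorem nice_U1 : Nice (U1 R) := fun θ => ⟨cd_U1.contDiffAt, by simp [U10]⟩

theorem nice_U2 (h : 1 < R) : Nice (U2 R) :=
  fun θ => ⟨cd_U2.contDiffAt, by rw [U20]; exact one_add_ne h _⟩

theorem nice_U3 (h : 1 < R) : Nice (U3 R) :=
  fun θ => ⟨cd_U3.contDiffAt, by rw [U30]; exact one_add_ne h _⟩

theorem nice_G1 (h : 1 < R) : Nice (G1 R) := fun θ =>
  ⟨(((((cd_tt.pow 2).mul contDiff_fX).add contDiff_const).contDiffAt).mul (cd_et h θ)).sub
    ((cd_tt.pow 2).mul (contDiff_fX.pow 2)).contDiffAt, by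
      rw [G10 h]; exact neg_ne_zero.2 (one_add_ne h _)⟩

theorem nice_G2 (h : 1 < R) : Nice (G2 R) := fun θ => by
  have b := cd_gi θ
  have c : ContDiffAt ℝ 1 (fun p => ww p * mm p) (θ, 0) := (cd_ww.mul cd_mm).contDiffAt
  have d : ContDiffAt ℝ 1 (fun p => tt p ^ 2) (θ, 0) := (cd_tt.pow 2).contDiffAt
  have e : ContDiffAt ℝ 1 (fX R) (θ, 0) := contDiff_fX.contDiffAt
  refine ⟨(((((e.sub b).mul (c.pow 2)).add d).mul ((cd_et h θ).sub ((d.mul b).mul e))).mul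
    (c.pow 3)).sub ((d.mul ((e.sub b).pow 2)).mul (c.pow 4)), ?_⟩
  rw [G20 h]
  exact mul_ne_zero (one_add_ne h _) (one_add_ne h _)

theorem nice_pow {Φ : ℝ × ℂ → ℂ} (h : Nice Φ) (n : ℕ) : Nice fun p => Φ p ^ n :=
  fun θ => ⟨(h θ).1.pow n, pow_ne_zero n (h θ).2⟩

theorem nice_of {Φ : ℝ × ℂ → ℂ} (h : ContDiff ℝ 1 Φ) (h0 : ∀ θ, Φ (θ, 0) ≠ 0) : Nice Φ :=
  fun θ => ⟨h.contDiffAt, h0 θ⟩

theorem good_one_add (h : 1 < R) : Good fun θ => 1 + fX R (θ, 0) :=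
  ⟨contDiff_const.add (good_X (zero_lt_one.trans h)).1, fun _ => one_add_ne h _⟩

theorem wind_one_add (h : 1 < R) : wind (fun θ => 1 + fX R (θ, 0)) = 2 * π := by
  have h0 : 0 < R := zero_lt_one.trans h
  have g := good_X h0
  have g2 : Good fun θ => 1 + (fX R (θ, 0))⁻¹ :=
    ⟨contDiff_const.add (g.1.inv g.2), fun θ c => one_add_ne h (θ, 0) (by
      have := g.2 θ
      have e : 1 + fX R (θ, 0) = fX R (θ, 0) * (1 + (fX R (θ, 0))⁻¹) := by
        field_simp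
        ring
      rw [e]
      exact mul_eq_zero_of_right _ c)⟩
  have w2 := wind_slit g2 (fun θ => Or.inl (by
    have a := Complex.abs_re_le_norm (fX R (θ, 0))⁻¹
    rw [norm_inv, norm_fX h0] at a
    have b := (abs_le.1 a).1
    have c := inv_lt_one_of_one_lt₀ h
    simp only [add_re, one_re]
    linarith)) (by simp only [per_X])
  have w3 := wind_mul g g2
  have e : (fun θ => fX R (θ, 0) * (1 + (fX R (θ, 0))⁻¹)) = fun θ => 1 + fX R (θ, 0) := by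
    funext θ
    have := g.2 θ
    field_simp
    ring
  rw [e, wind_X h0, w2, add_zero] at w3
  exact w3

theorem wind_sq (h : 1 < R) :
    wind (fun θ => (1 + fX R (θ, 0)) * (1 + fX R (θ, 0))) = 2 * π + 2 * π := by
  rw [wind_mul (good_one_add h) (good_one_add h), wind_one_add h]

theorem wind_one : wind (fun _ => (1 : ℂ)) = 0 := by simp [wind, dl]

theorem ev_slit (h : 1 < R) : ∀ᶠ ζ in 𝓝 (0 : ℂ), ∀ θ : ℝ, ps R (θ, ζ) ∈ slitPlane := by
  have k : ∀ᶠ ζ in 𝓝 (0 : ℂ), ∀ θ ∈ Set.Icc 0 (2 * π), ps R (θ, ζ) ∈ slitPlane := by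
    apply isCompact_Icc.eventually_forall_of_forall_eventually
      (P := fun ζ θ => ps R (θ, ζ) ∈ slitPlane)
    intro θ _
    have a2 : Tendsto (Prod.swap : ℂ × ℝ → ℝ × ℂ) (𝓝 (0, θ)) (𝓝 (θ, 0)) :=
      continuous_swap.tendsto _
    have c2 := ((cd_ps h).continuous.continuousAt (x := (θ, 0))).eventually_mem
      (isOpen_slitPlane.mem_nhds (by simp [ps0 h]))
    exact a2.eventually c2
  filter_upwards [k] with ζ hζ θ
  obtain ⟨θ', h1, h2⟩ := (periodic_circleMap 0 R).exists_mem_Ico₀ Real.two_pi_pos θ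
  have e : fX R (θ, ζ) = fX R (θ', ζ) := h2
  have e2 : ps R (θ, ζ) = ps R (θ', ζ) := by
    simp only [ps, U1, U2, U3, mm, tt, ww, e]
  rw [e2]
  exact hζ θ' (Set.Ico_subset_Icc_self h1)

theorem Yf_sq (h : 1 < R) {p : ℝ × ℂ} (hs : ps R p ∈ slitPlane) :
    Yf R p ^ 2 = U1 R p * U2 R p * U3 R p := by
  have e : Complex.exp (Complex.log (ps R p) / 2) ^ 2 = ps R p := by
    rw [sq, ← Complex.exp_add, add_halves, Complex.exp_log (slitPlane_ne_zero hs)]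
  have := one_add_ne h p
  rw [Yf, mul_pow, e, ps]
  field_simp

theorem Yf_per (ζ : ℂ) : Yf R (2 * π, ζ) = Yf R (0, ζ) := by
  have e : fX R (2 * π, ζ) = fX R (0, ζ) := by simpa [fX] using periodic_circleMap 0 R 0
  simp only [Yf, ps, U1, U2, U3, mm, tt, ww, e]

end Pool.Agent.MP_f3836a_nt.H24
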