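import Pool.Agent.MP_f3836a_nt.H24.Ind

namespace Pool.Agent.MP_f3836a_nt.H24

open Pool.Agent.MP_f3836a_nt.H23
open Complex Filter Topology Real

/-- The real embedding `σ` is close to a cusp. -/
def Near {K : Type} [Field K] (ε : ℝ) (σ : K →+* ℝ) (w w' : K) : Prop :=
  |σ w - 1| < ε ∧ |σ w'⁻¹| < ε

theorem abs_six {r1 r2 r3 r4 r5 r6 p1 p2 p3 p4 p5 p6 n1 n2 n3 n4 n5 n6 δ : ℝ}
    (h1 : |r1 - p1| < δ) (h2 : |r2 - p2| < δ) (h3 : |r3 - p3| < δ) (h4 : |r4 - p4| < δ)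
    (h5 : |r5 - p5| < δ) (h6 : |r6 - p6| < δ)
    (h : n1 * r1 + n2 * r2 + n3 * r3 + n4 * r4 + n5 * r5 + n6 * r6 = 0) :
    |n1 * p1 + n2 * p2 + n3 * p3 + n4 * p4 + n5 * p5 + n6 * p6| ≤
      δ * (|n1| + |n2| + |n3| + |n4| + |n5| + |n6|) := by
  have k : ∀ n e : ℝ, |e| < δ → |n * e| ≤ δ * |n| := fun n e he => by
    rw [abs_mul, mul_comm]
    exact mul_le_mul_of_nonneg_right he.le (abs_nonneg n)
  have a1 := abs_le.1 (k n1 _ h1)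
  have a2 := abs_le.1 (k n2 _ h2)
  have a3 := abs_le.1 (k n3 _ h3)
  have a4 := abs_le.1 (k n4 _ h4)
  have a5 := abs_le.1 (k n5 _ h5)
  have a6 := abs_le.1 (k n6 _ h6)
  rw [abs_le]
  constructor <;> linarith [a1.1, a1.2, a2.1, a2.2, a3.1, a3.2, a4.1, a4.2, a5.1, a5.2, a6.1, a6.2]

theorem solve_six {g1 g2 g3 g4 g5 g6 S : ℝ} (hS : S = |g1| + |g2| + |g3| + |g4| + |g5| + |g6|)
    (y1 : |3 * g2 + 3 * g3 + 2 * g5 + 2 * g6| ≤ S / 10)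
    (y2 : |3 * g1 + 3 * g3 + 2 * g4 + 2 * g6| ≤ S / 10)
    (y3 : |3 * g1 + 3 * g2 + 2 * g4 + 2 * g5| ≤ S / 10)
    (y4 : |-2 * g2 - 2 * g3 + 3 * g5 + 3 * g6| ≤ S / 10)
    (y5 : |-2 * g1 - 2 * g3 + 3 * g4 + 3 * g6| ≤ S / 10)
    (y6 : |-2 * g1 - 2 * g2 + 3 * g4 + 3 * g5| ≤ S / 10) :
    g1 = 0 ∧ g2 = 0 ∧ g3 = 0 ∧ g4 = 0 ∧ g5 = 0 ∧ g6 = 0 := by
  obtain ⟨a1, b1⟩ := abs_le.1 y1
  obtain ⟨a2, b2⟩ := abs_le.1 y2
  obtain ⟨a3, b3⟩ := abs_le.1 y3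
  obtain ⟨a4, b4⟩ := abs_le.1 y4
  obtain ⟨a5, b5⟩ := abs_le.1 y5
  obtain ⟨a6, b6⟩ := abs_le.1 y6
  have c1 : |g1| ≤ 3 * S / 52 := abs_le.2 ⟨by linarith, by linarith⟩
  have c2 : |g2| ≤ 3 * S / 52 := abs_le.2 ⟨by linarith, by linarith⟩
  have c3 : |g3| ≤ 3 * S / 52 := abs_le.2 ⟨by linarith, by linarith⟩
  have c4 : |g4| ≤ 3 * S / 52 := abs_le.2 ⟨by linarith, by linarith⟩
  have c5 : |g5| ≤ 3 * S / 52 := abs_le.2 ⟨by linarith, by linarith⟩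
  have c6 : |g6| ≤ 3 * S / 52 := abs_le.2 ⟨by linarith, by linarith⟩
  have d1 := abs_nonneg g1
  have d2 := abs_nonneg g2
  have d3 := abs_nonneg g3
  have d4 := abs_nonneg g4
  have d5 := abs_nonneg g5
  have d6 := abs_nonneg g6
  refine ⟨abs_eq_zero.1 ?_, abs_eq_zero.1 ?_, abs_eq_zero.1 ?_, abs_eq_zero.1 ?_, abs_eq_zero.1 ?_,
    abs_eq_zero.1 ?_⟩ <;> linarith

theorem loc_real : ∃ ε : ℝ, 0 < ε ∧ ∀ (K : Type) [Field K] [NumberField K]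
    (F : Type) [Field F] [Algebra K F] (b w1 w2 w3 : K) (x y : F) (σ : K →+* ℝ),
    Dat b w1 w2 w3 → Near ε σ w1 w2 → Transcendental K x →
    IntermediateField.adjoin K {x, y} = ⊤ →
    y ^ 2 + (1 - algebraMap K F b) * x * y - algebraMap K F b * y =
      x ^ 3 - algebraMap K F b * x ^ 2 →
    ∃ ρ : K2 F →ₗ[ℤ] ℝ, |ρ (El (algebraMap K F w1) x y) - 0| < 1 / 10 ∧
      |ρ (El (algebraMap K F w2) x y) - 3| < 1 / 10 ∧
      |ρ (El (algebraMap K F w3) x y) - 3| < 1 / 10 ∧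
      |ρ (El (-(algebraMap K F w1)⁻¹) ((x - algebraMap K F b) / algebraMap K F b ^ 2)
        ((y - algebraMap K F b * x) / algebraMap K F b ^ 3)) - 0| < 1 / 10 ∧
      |ρ (El (-(algebraMap K F w2)⁻¹) ((x - algebraMap K F b) / algebraMap K F b ^ 2)
        ((y - algebraMap K F b * x) / algebraMap K F b ^ 3)) - 2| < 1 / 10 ∧
      |ρ (El (-(algebraMap K F w3)⁻¹) ((x - algebraMap K F b) / algebraMap K F b ^ 2)
        ((y - algebraMap K F b * x) / algebraMap K F b ^ 3)) - 2| < 1 / 10 := by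
  obtain ⟨ε, hε, hl⟩ := Metric.eventually_nhds_iff.1 (loc (δ := 1 / 10) (by norm_num))
  refine ⟨ε / 2, half_pos hε, ?_⟩
  intro K _ _ F _ _ b w1 w2 w3 x y σ hd hn
  refine hl (y := ⟨σ w2⁻¹, σ w1 - 1⟩) ?_ K F b w1 w2 w3 x y (Complex.ofRealHom.comp σ) hd rfl
    (by simp)
  rw [dist_zero_right]
  refine (Complex.norm_le_abs_re_add_abs_im _).trans_lt ?_
  linarith [hn.1, hn.2]

theorem rank_six : ∃ ε : ℝ, 0 < ε ∧ ∀ (K : Type) [Field K] [NumberField K] (b w1 w2 w3 : K),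
    Dat b w1 w2 w3 → IsIntegral ℤ w1 → IsIntegral ℤ w2 → IsIntegral ℤ w3 → IsIntegral ℤ w1⁻¹ →
    IsIntegral ℤ w2⁻¹ → IsIntegral ℤ w3⁻¹ → ∀ σ1 σ2 σ3 σ4 σ5 σ6 : K →+* ℝ,
    Near ε σ1 w1 w2 → Near ε σ2 w2 w3 → Near ε σ3 w3 w1 → Near ε σ4 (-w1⁻¹) (-w2⁻¹) →
    Near ε σ5 (-w2⁻¹) (-w3⁻¹) → Near ε σ6 (-w3⁻¹) (-w1⁻¹) →
    ∀ (F : Type) [Field F] [Algebra K F] (x y : F), Transcendental K x →
      IntermediateField.adjoin K {x, y} = ⊤ →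
      y ^ 2 + (1 - algebraMap K F b) * x * y - algebraMap K F b * y =
        x ^ 3 - algebraMap K F b * x ^ 2 → 6 ≤ rankK2ur F := by
  obtain ⟨ε, hε, hl⟩ := loc_real
  refine ⟨ε, hε, ?_⟩
  intro K _ _ b w1 w2 w3 hd i1 i2 i3 j1 j2 j3 σ1 σ2 σ3 σ4 σ5 σ6 n1 n2 n3 n4 n5 n6 F _ _ x y hx
    hgen hE
  have : CharZero F := charZero_of_injective_algebraMap (algebraMap K F).injective
  have dF := hd.map (algebraMap K F)
  have b0 := dF.b_ne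
  have ib : IsIntegral ℤ b := by
    rw [eq_inv_of_mul_eq_one_left hd.h3, mul_inv, mul_inv]
    exact (j1.mul j2).mul j3
  have ib' : IsIntegral ℤ (-b⁻¹) := by
    rw [← eq_inv_of_mul_eq_one_right hd.h3]
    exact ((i1.mul i2).mul i3).neg
  have im : ∀ k : K, IsIntegral ℤ k → IsIntegral ℤ (algebraMap K F k) :=
    fun k hk => hk.map (algebraMap K F).toIntAlgHom
  have hx' := tr_dia hd.b_ne hx
  have hE' := E_dia b0 hE
  have eb : algebraMap K F (-b⁻¹) = -(algebraMap K F b)⁻¹ := by simp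
  have ew : ∀ k : K, algebraMap K F (-k⁻¹) = -(algebraMap K F k)⁻¹ := fun k => by simp
  obtain ⟨ρ1, a1, a2, a3, a4, a5, a6⟩ := hl K F b w1 w2 w3 x y σ1 hd n1 hx hgen hE
  obtain ⟨ρ2, c2, c3, c1, c5, c6, c4⟩ := hl K F b w2 w3 w1 x y σ2 hd.cyc n2 hx hgen hE
  obtain ⟨ρ3, d3, d1, d2, d6, d4, d5⟩ := hl K F b w3 w1 w2 x y σ3 hd.cyc.cyc n3 hx hgen hE
  have x0 : x ≠ 0 := fun h => hx (h ▸ isAlgebraic_zero)
  have x1 : (x - algebraMap K F b) / algebraMap K F b ^ 2 ≠ 0 :=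
    fun h => hx' (h ▸ isAlgebraic_zero)
  have m1 := El_mem (im _ ib) (im _ i1) dF.rel hE (u_ne hd.add_ne hx) x0 dF.add_ne
  have m2 := El_mem (im _ ib) (im _ i2) dF.cyc.rel hE (u_ne hd.cyc.add_ne hx) x0 dF.cyc.add_ne
  have m3 := El_mem (im _ ib) (im _ i3) dF.cyc.cyc.rel hE (u_ne hd.cyc.cyc.add_ne hx) x0
    dF.cyc.cyc.add_ne
  have m4 := El_mem (eb ▸ im _ ib') (ew w1 ▸ im _ j1.neg) dF.dia.rel hE'
    (ew w1 ▸ u_ne hd.dia.add_ne hx') x1 dF.dia.add_ne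
  have m5 := El_mem (eb ▸ im _ ib') (ew w2 ▸ im _ j2.neg) dF.cyc.dia.rel hE'
    (ew w2 ▸ u_ne hd.cyc.dia.add_ne hx') x1 dF.cyc.dia.add_ne
  have m6 := El_mem (eb ▸ im _ ib') (ew w3 ▸ im _ j3.neg) dF.cyc.cyc.dia.rel hE'
    (ew w3 ▸ u_ne hd.cyc.cyc.dia.add_ne hx') x1 dF.cyc.cyc.dia.add_ne
  have k1 := El_conj hE (u_ne hd.add_ne hx) x0 dF.add_ne
  have k2 := El_conj hE (u_ne hd.cyc.add_ne hx) x0 dF.cyc.add_ne
  have k3 := El_conj hE (u_ne hd.cyc.cyc.add_ne hx) x0 dF.cyc.cyc.add_ne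
  set B := algebraMap K F b with hB
  set x' := (x - B) / B ^ 2 with hx1
  set y' := (y - B * x) / B ^ 3 with hy1
  have ex : (x' - -B⁻¹) / (-B⁻¹) ^ 2 = x := by
    rw [hx1]
    field_simp
    ring
  have ey : (y' - -B⁻¹ * x') / (-B⁻¹) ^ 3 = -y - (1 - B) * x + B := by
    rw [hx1, hy1]
    field_simp
    ring
  have hgen' : IntermediateField.adjoin K {x', y'} = ⊤ := by
    rw [eq_top_iff, ← hgen, IntermediateField.adjoin_le_iff]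
    have q1 : x' ∈ IntermediateField.adjoin K {x', y'} :=
      IntermediateField.subset_adjoin _ _ (by simp)
    have q2 : y' ∈ IntermediateField.adjoin K {x', y'} :=
      IntermediateField.subset_adjoin _ _ (by simp)
    have q3 : B ∈ IntermediateField.adjoin K {x', y'} := IntermediateField.algebraMap_mem _ _
    have e1 : x = x' * B ^ 2 + B := by
      rw [hx1]
      field_simp
      ring
    have q4 : x ∈ IntermediateField.adjoin K {x', y'} :=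
      e1 ▸ add_mem (mul_mem q1 (pow_mem q3 2)) q3
    have e2 : y = y' * B ^ 3 + B * x := by
      rw [hy1]
      field_simp
      ring
    rintro s (rfl | rfl)
    · exact q4
    · exact e2 ▸ add_mem (mul_mem q2 (pow_mem q3 3)) (mul_mem q3 q4)
  obtain ⟨ρ4, e4, e5, e6, e1, e2, e3⟩ :=
    hl K F _ _ _ _ x' y' σ4 hd.dia n4 hx' hgen' (by rw [eb]; exact hE')
  obtain ⟨ρ5, f5, f6, f4, f2, f3, f1⟩ :=
    hl K F _ _ _ _ x' y' σ5 hd.cyc.dia n5 hx' hgen' (by rw [eb]; exact hE')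
  obtain ⟨ρ6, g6, g4, g5, g3, g1, g2⟩ :=
    hl K F _ _ _ _ x' y' σ6 hd.cyc.cyc.dia n6 hx' hgen' (by rw [eb]; exact hE')
  rw [ew] at e4 e5 e6 f4 f5 f6 g4 g5 g6
  have ei : ∀ k : K, -(algebraMap K F (-k⁻¹))⁻¹ = algebraMap K F k := fun k => by
    simp [inv_neg]
  rw [ei, eb, ex, ey] at e1 e2 e3 f1 f2 f3 g1 g2 g3
  rw [k1, map_neg] at e1 f1 g1
  rw [k2, map_neg] at e2 f2 g2
  rw [k3, map_neg] at e3 f3 g3
  generalize El (algebraMap K F w1) x y = γ1 at *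
  generalize El (algebraMap K F w2) x y = γ2 at *
  generalize El (algebraMap K F w3) x y = γ3 at *
  generalize El (-(algebraMap K F w1)⁻¹) x' y' = γ4 at *
  generalize El (-(algebraMap K F w2)⁻¹) x' y' = γ5 at *
  generalize El (-(algebraMap K F w3)⁻¹) x' y' = γ6 at *
  have li : LinearIndependent ℤ (![⟨4 • γ1, m1⟩, ⟨4 • γ2, m2⟩, ⟨4 • γ3, m3⟩, ⟨4 • γ4, m4⟩,
      ⟨4 • γ5, m5⟩, ⟨4 • γ6, m6⟩] : Fin 6 → K2ur F) := by
    rw [Fintype.linearIndependent_iff]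
    intro g hg
    have hg' := congrArg Subtype.val hg
    simp only [Fin.sum_univ_six, Matrix.cons_val_zero, Matrix.cons_val_one, Matrix.cons_val,
      Submodule.coe_add, Submodule.coe_smul_of_tower, ZeroMemClass.coe_zero] at hg'
    have k : ∀ ρ : K2 F →ₗ[ℤ] ℝ, (g 0 : ℝ) * ρ γ1 + (g 1 : ℝ) * ρ γ2 + (g 2 : ℝ) * ρ γ3 +
        (g 3 : ℝ) * ρ γ4 + (g 4 : ℝ) * ρ γ5 + (g 5 : ℝ) * ρ γ6 = 0 := by
      intro ρ
      have := congrArg ρ hg'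
      simp only [map_add, map_zsmul, map_nsmul, map_zero, zsmul_eq_mul, nsmul_eq_mul,
        Nat.cast_ofNat] at this
      linarith
    have k' : ∀ ρ : K2 F →ₗ[ℤ] ℝ, -(g 0 : ℝ) * -ρ γ1 + -(g 1 : ℝ) * -ρ γ2 + -(g 2 : ℝ) * -ρ γ3 +
        (g 3 : ℝ) * ρ γ4 + (g 4 : ℝ) * ρ γ5 + (g 5 : ℝ) * ρ γ6 = 0 := fun ρ => by
      linarith [k ρ]
    have y1 := abs_six a1 a2 a3 a4 a5 a6 (k ρ1)
    have y2 := abs_six c1 c2 c3 c4 c5 c6 (k ρ2)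
    have y3 := abs_six d1 d2 d3 d4 d5 d6 (k ρ3)
    have y4 := abs_six e1 e2 e3 e4 e5 e6 (k' ρ4)
    have y5 := abs_six f1 f2 f3 f4 f5 f6 (k' ρ5)
    have y6 := abs_six g1 g2 g3 g4 g5 g6 (k' ρ6)
    rw [abs_neg, abs_neg, abs_neg] at y4 y5 y6
    obtain ⟨z0, z1, z2, z3, z4, z5⟩ := solve_six (g1 := g 0) (g2 := g 1) (g3 := g 2) (g4 := g 3)
      (g5 := g 4) (g6 := g 5) rfl
      (le_of_eq_of_le (by congr 1; ring) (y1.trans_eq (by ring)))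
      (le_of_eq_of_le (by congr 1; ring) (y2.trans_eq (by ring)))
      (le_of_eq_of_le (by congr 1; ring) (y3.trans_eq (by ring)))
      (le_of_eq_of_le (by congr 1; ring) (y4.trans_eq (by ring)))
      (le_of_eq_of_le (by congr 1; ring) (y5.trans_eq (by ring)))
      (le_of_eq_of_le (by congr 1; ring) (y6.trans_eq (by ring)))
    rw [Int.cast_eq_zero] at z0 z1 z2 z3 z4 z5
    intro i
    fin_cases i
    exacts [z0, z1, z2, z3, z4, z5]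
  simpa [rankK2ur] using li.cardinal_le_rank

end Pool.Agent.MP_f3836a_nt.H24
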