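import Pool.Agent.MP_f3836a_nt.H23.Final

namespace Pool.Agent.MP_f3836a_nt.H24

open Pool.Agent.MP_f3836a_nt.H23
open scoped WithZero

variable {F : Type} [Field F]

theorem sym_mul_right (a b c : Fˣ) : sym a (b * c) = sym a b + sym a c := by
  unfold sym
  rw [ofMul_mul, TensorProduct.tmul_add]
  rfl

theorem sym_stein (a b : Fˣ) (h : (a : F) + b = 1) : sym a b = 0 :=
  (Submodule.Quotient.mk_eq_zero _).2 (Submodule.subset_span ⟨a, b, h, rfl⟩)

theorem sy_mul_right {f g h : F} (hf : f ≠ 0) (hg : g ≠ 0) (hh : h ≠ 0) :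
    sy f (g * h) = sy f g + sy f h := by
  rw [sy_eq hf (mul_ne_zero hg hh), sy_eq hf hg, sy_eq hf hh, ← sym_mul_right, Units.mk0_mul]

theorem sy_conj {u v v' : F} (hu : u ≠ 0) (hu1 : 1 - u ≠ 0) (h : v * v' = (1 - u) ^ 5) :
    sy u v' = -sy u v := by
  have h0 : v * v' ≠ 0 := h ▸ pow_ne_zero 5 hu1
  have h1 : sy u (1 - u) = 0 := by
    rw [sy_eq hu hu1]
    exact sym_stein _ _ (by simp)
  have h2 := sy_mul_right hu (left_ne_zero_of_mul h0) (right_ne_zero_of_mul h0)
  have h3 : ∀ n : ℕ, sy u ((1 - u) ^ (n + 1)) = 0 := by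
    intro n
    induction n with
    | zero => simpa using h1
    | succ n ih => rw [pow_succ, sy_mul_right hu (pow_ne_zero _ hu1) hu1, ih, h1, add_zero]
  rw [h, h3 4] at h2
  exact eq_neg_of_add_eq_zero_right h2.symm

theorem tameRes_sq' (ν : Valuation F ℤᵐ⁰) (b : Fˣ) : tameRes ν b (b * b) = 0 := by
  rw [tameRes_eq_zero]
  have e : ((-1) ^ (ord ν b * ord ν (b * b)) * b ^ ord ν (b * b) * (b * b) ^ (-ord ν b) : Fˣ) = 1 := by
    rw [ord_mul, Even.neg_one_zpow (Even.mul_left ⟨_, rfl⟩ _), mul_zpow, ← zpow_add, one_mul,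
      ← zpow_add]
    simp
  rw [e]
  simp

theorem v_pow_sub_one (ν : Valuation F ℤᵐ⁰) {a : F} (h : ν (a - 1) < 1) (n : ℕ) :
    ν (a ^ n - 1) < 1 := by
  induction n with
  | zero => simp
  | succ n ih =>
    have e : a ^ (n + 1) - 1 = a * (a ^ n - 1) + (a - 1) := by ring
    rw [e]
    refine ν.map_add_lt ?_ h
    rwa [map_mul, v_eq_one_of ν h, one_mul]

theorem four_tame (ν : Valuation F ℤᵐ⁰) (u v : Fˣ) (c d : F) (hc : ν c ≤ 1) (hd : ν d ≤ 1)
    (h : (v : F) ^ 2 - (2 + u * (c + d * u)) * v + (1 - u) ^ 5 = 0) :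
    4 • tameRes ν u v = 0 := by
  have pu : 0 < ν (u : F) := zero_lt_iff.2 (v_ne ν u)
  have pv : 0 < ν (v : F) := zero_lt_iff.2 (v_ne ν v)
  have h2 : ν (2 : F) ≤ 1 := v_two_le ν
  have hv : ν (v : F) * ν ((v : F) - (2 + u * (c + d * u))) = ν (1 - (u : F)) ^ 5 := by
    rw [← map_mul, ← map_pow, ← Valuation.map_neg ν ((1 - (u : F)) ^ 5)]
    congr 1
    linear_combination h
  rcases lt_trichotomy (ν (u : F)) 1 with h1 | h1 | h1
  · have hA : ν ((u : F) * (c + d * u)) < 1 := by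
      rw [map_mul]
      refine mul_lt_one_of_lt_of_le h1 (ν.map_add_le hc ?_)
      rw [map_mul]
      exact mul_le_one' hd h1.le
    have hB : ν ((1 - (u : F)) ^ 5 - 1) < 1 := v_pow_sub_one ν (by simpa using h1) 5
    have : ν ((v : F) - 1) < 1 := by
      by_contra hc'
      have he : 1 ≤ ν ((v : F) - 1) := not_lt.1 hc'
      have pe : 0 < ν ((v : F) - 1) := zero_lt_one.trans_le he
      have e : ((v : F) - 1) * (v - 1) =
          (u * (c + d * u)) * (v - 1) + (u * (c + d * u) - ((1 - (u : F)) ^ 5 - 1)) := by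
        linear_combination h
      have a1 : ν (((v : F) - 1) * (v - 1)) < ν ((v : F) - 1) := by
        rw [e]
        refine ν.map_add_lt ?_ ((ν.map_sub_lt hA hB).trans_le he)
        rw [map_mul]
        simpa using mul_lt_mul_of_pos_right hA pe
      rw [map_mul] at a1
      have : ν ((v : F) - 1) * 1 ≤ ν ((v : F) - 1) * ν ((v : F) - 1) := mul_le_mul_right he _
      rw [mul_one] at this
      exact absurd a1 (not_lt.2 this)
    rw [tameRes_right ν u this, smul_zero]
  · by_cases h3 : ν ((u : F) - 1) < 1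
    · rw [tameRes_left ν v h3, smul_zero]
    have h4 : ν (1 - (u : F)) = 1 := by
      rw [← Valuation.map_neg, neg_sub]
      exact le_antisymm (ν.map_sub_le h1.le (by simp)) (not_lt.1 h3)
    have hs : ν (2 + (u : F) * (c + d * u)) ≤ 1 := by
      refine ν.map_add_le h2 ?_
      rw [map_mul, h1, one_mul]
      refine ν.map_add_le hc ?_
      rwa [map_mul, h1, mul_one]
    rw [h4, one_pow] at hv
    have : ν (v : F) = 1 := by
      rcases lt_trichotomy (ν (v : F)) 1 with h5 | h5 | h5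
      · exact absurd hv (mul_lt_one_of_lt_of_le h5 (ν.map_sub_le h5.le hs)).ne
      · exact h5
      · rw [ν.map_sub_eq_of_lt_left (hs.trans_lt h5)] at hv
        exact absurd hv (one_lt_mul'' h5 h5).ne'
    rw [tameRes_units ν h1 this, smul_zero]
  · have h4 : ν (1 - (u : F)) = ν (u : F) := ν.map_sub_eq_of_lt_right (by simpa using h1)
    have h11 : 1 ≤ ν (u : F) * ν (u : F) := one_le_mul h1.le h1.le
    have hs : ν (2 + (u : F) * (c + d * u)) ≤ ν (u : F) * ν (u : F) := by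
      refine ν.map_add_le (h2.trans h11) ?_
      rw [map_mul]
      refine mul_le_mul_right (ν.map_add_le (hc.trans h1.le) ?_) _
      rw [map_mul]
      simpa using mul_le_mul_left hd (ν (u : F))
    rw [h4] at hv
    have h5 : ν (u : F) * ν (u : F) < ν (v : F) := by
      by_contra hc'
      have a1 := not_lt.1 hc'
      have a2 : ν (u : F) ^ 5 ≤ (ν (u : F) * ν (u : F)) * (ν (u : F) * ν (u : F)) :=
        hv ▸ mul_le_mul' a1 (ν.map_sub_le a1 hs)
      have a3 : (ν (u : F) * ν (u : F)) * (ν (u : F) * ν (u : F)) = ν (u : F) ^ 4 := by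
        simp only [pow_succ, pow_zero, one_mul, mul_assoc]
      rw [a3] at a2
      exact absurd a2 (not_le.2 (pow_lt_pow_right₀ h1 (by norm_num)))
    rw [ν.map_sub_eq_of_lt_left (hs.trans_lt h5)] at hv
    have hu := u.ne_zero
    have h6 : ν (((v * v * (u ^ 5)⁻¹ : Fˣ) : F) - 1) < 1 := by
      have e : ((v * v * (u ^ 5)⁻¹ : Fˣ) : F) - 1 =
          (2 + u * (c + d * u)) * v / (u : F) ^ 5 + ((1 - (u : F)⁻¹) ^ 5 - 1) := by
        simp only [Units.val_mul, Units.val_inv_eq_inv_val, Units.val_pow_eq_pow_val]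
        field_simp
        linear_combination h
      rw [e]
      refine ν.map_add_lt ?_ (v_pow_sub_one ν ?_ 5)
      · rw [map_div₀, map_pow, div_lt_one₀ (pow_pos pu 5), ← hv, map_mul]
        exact mul_lt_mul_of_pos_right (hs.trans_lt h5) pv
      · simpa using inv_lt_one_of_one_lt₀ h1
    set ε : Fˣ := v * v * (u ^ 5)⁻¹ with hε
    have e : v * v * (v * v) = (u * u) * ((u * u) * ((u * u) * ((u * u) * ((u * u) * (ε * ε))))) := by
      apply Units.ext
      simp only [hε, Units.val_mul, Units.val_inv_eq_inv_val, Units.val_pow_eq_pow_val]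
      field_simp
    have e2 : 4 • tameRes ν u v = tameRes ν u (v * v * (v * v)) := by
      simp only [tameRes_mul_right]
      abel
    rw [e2, e, tameRes_mul_right ν u (u * u), tameRes_mul_right ν u (u * u),
      tameRes_mul_right ν u (u * u), tameRes_mul_right ν u (u * u), tameRes_mul_right ν u (u * u),
      tameRes_sq', tameRes_mul_right ν u ε, tameRes_right ν u h6]
    simp

/-- The symbol attached to a point of order two and a point of order five. -/
noncomputable def El (w x y : F) : K2 F :=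
  sy (1 + (1 + w) ^ 2 * x) ((1 + w) ^ 5 * ((x + 1) * y - x ^ 2))

theorem v_prod {b w x y : F} (hE : y ^ 2 + (1 - b) * x * y - b * y = x ^ 3 - b * x ^ 2) :
    ((1 + w) ^ 5 * ((x + 1) * y - x ^ 2)) *
      ((1 + w) ^ 5 * ((x + 1) * (-y - (1 - b) * x + b) - x ^ 2)) =
        (1 - (1 + (1 + w) ^ 2 * x)) ^ 5 := by
  linear_combination (-(1 + w) ^ 10 * (x + 1) ^ 2) * hE

theorem f_ne {b x y : F} (hE : y ^ 2 + (1 - b) * x * y - b * y = x ^ 3 - b * x ^ 2) (hx : x ≠ 0) :
    (x + 1) * y - x ^ 2 ≠ 0 := by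
  intro h
  have := v_prod (w := 0) hE
  rw [h] at this
  apply pow_ne_zero 5 hx
  linear_combination this

theorem El_conj {b w x y : F} (hE : y ^ 2 + (1 - b) * x * y - b * y = x ^ 3 - b * x ^ 2)
    (hu : 1 + (1 + w) ^ 2 * x ≠ 0) (hx : x ≠ 0) (hw : 1 + w ≠ 0) :
    El w x (-y - (1 - b) * x + b) = -El w x y := by
  refine sy_conj hu ?_ (v_prod hE)
  simpa using ⟨hw, hx⟩

theorem El_mem {b w x y : F} (hb : IsIntegral ℤ b) (hw : IsIntegral ℤ w)
    (hrel : b * (1 + w) * w ^ 2 = 1 - w)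
    (hE : y ^ 2 + (1 - b) * x * y - b * y = x ^ 3 - b * x ^ 2)
    (hu : 1 + (1 + w) ^ 2 * x ≠ 0) (hx : x ≠ 0) (hw0 : 1 + w ≠ 0) :
    4 • El w x y ∈ K2ur F := by
  have hv : (1 + w) ^ 5 * ((x + 1) * y - x ^ 2) ≠ 0 := mul_ne_zero (pow_ne_zero 5 hw0) (f_ne hE hx)
  rw [K2ur, Submodule.mem_iInf]
  intro ν
  have k : ∀ a : F, IsIntegral ℤ a → ν a ≤ 1 := fun a ha =>
    (Valuation.integer.integers ν).mem_of_integral (ha.tower_top (A := ν.integer))
  have i1 : IsIntegral ℤ (1 + w) := isIntegral_one.add hw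
  have i2 : IsIntegral ℤ (2 : F) := by simpa using (isIntegral_algebraMap (R := ℤ) (A := F) (x := 2))
  have i3 : IsIntegral ℤ (3 : F) := by simpa using (isIntegral_algebraMap (R := ℤ) (A := F) (x := 3))
  rw [LinearMap.mem_ker, map_nsmul, El, sy_eq hu hv]
  refine four_tame ν (Units.mk0 _ hu) (Units.mk0 _ hv) ((2 * b - 1) * (1 + w) ^ 3 - 2 * (b - 3) * (1 + w)) ((b - 3) * (1 + w))
    (k _ ((((i2.mul hb).sub isIntegral_one).mul (i1.pow 3)).sub ((i2.mul (hb.sub i3)).mul i1)))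
    (k _ ((hb.sub i3).mul i1)) ?_
  simp only [Units.val_mk0]
  linear_combination ((1 + w) ^ 10 * (x + 1) ^ 2) * hE +
    ((2 + w) ^ 2 * ((1 + w) ^ 5 * ((x + 1) * y - x ^ 2))) * hrel

end Pool.Agent.MP_f3836a_nt.H24
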